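import Mathlib

/-!
# Matchings of a matrix all of whose minors lie in a multiplicative set (helper23)
-/

set_option autoImplicit false

namespace Pool.Agent.H23Sw

open Finset

section Cycle

variable {K : Type*} [Field K] (v : AbsoluteValue K ℝ) {r : ℕ} (G : Set K) (c : ℝ)

theorem entry_mem (A : Matrix (Fin r) (Fin r) K)
    (H : ∀ (k : ℕ) (f g : Fin k → Fin r), Function.Injective f → Function.Injective g →
      (A.submatrix f g).det = 0 ∨ (A.submatrix f g).det ∈ G) (i j : Fin r) (h : A i j ≠ 0) :
    A i j ∈ G := by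
  have := H 1 (fun _ => i) (fun _ => j) (fun a b _ => Subsingleton.elim a b)
    (fun a b _ => Subsingleton.elim a b)
  rw [Matrix.det_fin_one, Matrix.submatrix_apply] at this
  exact this.resolve_left h

theorem prod_mem_of {ι : Type*} (h1 : (1 : K) ∈ G) (hmul : ∀ p ∈ G, ∀ q ∈ G, p * q ∈ G)
    (s : Finset ι) (w : ι → K) (h : ∀ i ∈ s, w i ∈ G) : ∏ i ∈ s, w i ∈ G := by
  classical
  induction s using Finset.induction_on with
  | empty => simpa using h1
  | insert a s ha ih =>
    rw [Finset.prod_insert ha]
    exact hmul _ (h a (mem_insert_self a s)) _ (ih fun i hi => h i (mem_insert_of_mem hi))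

open scoped Fin.NatCast Fin.CommRing in
/-- A permutation of a cycle that moves each point by zero or one is trivial or the rotation. -/
theorem perm_cases {m : ℕ} (σ : Equiv.Perm (Fin (m + 2)))
    (h : ∀ i, σ i = i ∨ σ i = i + 1) : σ = 1 ∨ σ = Equiv.addRight 1 := by
  by_cases h0 : ∀ i, σ i = i
  · left
    ext i
    simp [h0 i]
  · right
    push Not at h0
    obtain ⟨i0, hi0⟩ := h0
    have hst : ∀ t : ℕ, σ (i0 + (t : Fin (m + 2))) = i0 + (t : Fin (m + 2)) + 1 := by
      intro t
      induction t with
      | zero => simpa using (h i0).resolve_left hi0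
      | succ t ih =>
        have e : i0 + ((t + 1 : ℕ) : Fin (m + 2)) = i0 + (t : Fin (m + 2)) + 1 := by
          push_cast
          ring
        rw [e]
        refine (h _).resolve_left fun hx => ?_
        have := σ.injective (hx.trans ih.symm)
        have h10 : (1 : Fin (m + 2)) = 0 := by
          have h2 : i0 + (t : Fin (m + 2)) + 1 = i0 + (t : Fin (m + 2)) + 0 := by rw [this]; simp
          exact add_left_cancel h2
        exact absurd h10 (by simp)
    ext i
    have := hst ((i - i0 : Fin (m + 2)) : ℕ)
    rw [Fin.cast_val_eq_self] at this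
    have e : i0 + (i - i0) = i := by ring
    rw [e] at this
    rw [this]
    rfl

theorem cyc_case (hc1 : 1 ≤ c) (h1 : (1 : K) ∈ G)
    (hmul : ∀ p ∈ G, ∀ q ∈ G, p * q ∈ G) (hneg : ∀ p ∈ G, -p ∈ G)
    (hC : ∀ p ∈ G, ∀ q ∈ G, (p + q = 0 ∨ p + q ∈ G) → v (p) ≤ c * v (q))
    (A : Matrix (Fin r) (Fin r) K)
    (H : ∀ (k : ℕ) (f g : Fin k → Fin r), Function.Injective f → Function.Injective g →
      (A.submatrix f g).det = 0 ∨ (A.submatrix f g).det ∈ G)
    (m : ℕ) (f g : ℕ → Fin r) (hf : Set.InjOn f (Set.Iio (m + 2)))
    (hg : Set.InjOn g (Set.Iio (m + 2))) (hgk : g (m + 2) = g 0)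
    (hd : ∀ i < m + 2, A (f i) (g i) ≠ 0) (hn : ∀ i < m + 2, A (f i) (g (i + 1)) ≠ 0)
    (hch : ∀ i < m + 2, ∀ j < m + 2, j ≠ i → j ≠ i + 1 → ¬ (i + 1 = m + 2 ∧ j = 0) →
      A (f i) (g j) = 0) :
    ∏ i ∈ range (m + 2), v (A (f i) (g i)) ≤
      c ^ (m + 1) * ∏ i ∈ range (m + 2), v (A (f i) (g (i + 1))) := by
  classical
  have hgs : ∀ i : Fin (m + 2), g ((i + 1 : Fin (m + 2)) : ℕ) = g ((i : ℕ) + 1) := by
    intro i
    rw [Fin.val_add]
    have hi := i.isLt
    by_cases hk : (i : ℕ) + 1 = m + 2
    · rw [show ((i : ℕ) + ((1 : Fin (m + 2)) : ℕ)) = m + 2 by rw [Fin.val_one]; exact hk,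
        Nat.mod_self, hk, hgk]
    · rw [Nat.mod_eq_of_lt]
      · rw [Fin.val_one]
      · rw [Fin.val_one]
        omega
  set N : Matrix (Fin (m + 2)) (Fin (m + 2)) K :=
    A.submatrix (fun i : Fin (m + 2) => f i) (fun j : Fin (m + 2) => g j) with hN
  have hdet := H (m + 2) (fun i => f i) (fun j => g j)
    (fun a b hab => Fin.ext (hf a.isLt b.isLt hab)) (fun a b hab => Fin.ext (hg a.isLt b.isLt hab))
  rw [← hN] at hdet
  have hne : (1 : Equiv.Perm (Fin (m + 2))) ≠ Equiv.addRight 1 := by
    intro h
    have := congrArg (fun e : Equiv.Perm (Fin (m + 2)) => e 0) h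
    simp at this
  have hsum : N.det = ∏ i : Fin (m + 2), A (f i) (g i) +
      ((Equiv.Perm.sign (Equiv.addRight (1 : Fin (m + 2)) : Equiv.Perm (Fin (m + 2))) : ℤ) : K) *
        ∏ i : Fin (m + 2), A (f i) (g ((i : ℕ) + 1)) := by
    rw [← Matrix.det_transpose, Matrix.det_apply']
    rw [← Finset.sum_subset (Finset.subset_univ ({1, Equiv.addRight 1} :
      Finset (Equiv.Perm (Fin (m + 2)))))]
    · rw [Finset.sum_pair hne]
      simp only [Equiv.Perm.sign_one, Units.val_one, Int.cast_one, one_mul, Matrix.transpose_apply,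
        Equiv.Perm.coe_one, id_eq, hN, Matrix.submatrix_apply]
      congr 2
      refine Finset.prod_congr rfl fun i _ => ?_
      rw [← hgs i]
      rfl
    · intro σ _ hσ
      have : ¬ ∀ i, σ i = i ∨ σ i = i + 1 := by
        intro h
        rcases perm_cases σ h with h' | h' <;> simp [h'] at hσ
      push Not at this
      obtain ⟨i, hi1, hi2⟩ := this
      rw [Finset.prod_eq_zero (Finset.mem_univ i), mul_zero]
      rw [Matrix.transpose_apply, hN, Matrix.submatrix_apply]
      apply hch _ i.isLt _ (σ i).isLt
      · intro h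
        exact hi1 (Fin.ext h)
      · intro h
        apply hi2
        apply Fin.ext
        rw [Fin.val_add, Fin.val_one, Nat.mod_eq_of_lt]
        · exact h
        · rw [← h]
          exact (σ i).isLt
      · rintro ⟨h, h'⟩
        apply hi2
        apply Fin.ext
        rw [Fin.val_add, Fin.val_one, h, Nat.mod_self, h']
  have hP : ∏ i : Fin (m + 2), A (f i) (g i) ∈ G :=
    prod_mem_of G h1 hmul _ _ fun i _ => entry_mem G A H _ _ (hd i i.isLt)
  have hQ : ∏ i : Fin (m + 2), A (f i) (g ((i : ℕ) + 1)) ∈ G :=
    prod_mem_of G h1 hmul _ _ fun i _ => entry_mem G A H _ _ (hn i i.isLt)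
  have key : v (∏ i : Fin (m + 2), A (f i) (g i)) ≤
      c * v (∏ i : Fin (m + 2), A (f i) (g ((i : ℕ) + 1))) := by
    rcases Int.units_eq_one_or (Equiv.Perm.sign
      (Equiv.addRight (1 : Fin (m + 2)) : Equiv.Perm (Fin (m + 2)))) with h | h
    · rw [h] at hsum
      simp only [Units.val_one, Int.cast_one, one_mul] at hsum
      rw [hsum] at hdet
      exact hC _ hP _ hQ hdet
    · rw [h] at hsum
      simp only [Units.val_neg, Units.val_one, Int.cast_neg, Int.cast_one, neg_mul, one_mul]
        at hsum
      rw [hsum] at hdet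
      have := hC _ hP _ (hneg _ hQ) hdet
      rwa [v.map_neg] at this
  rw [map_prod, map_prod] at key
  rw [Fin.prod_univ_eq_prod_range (fun i => v (A (f i) (g i))) (m + 2),
    Fin.prod_univ_eq_prod_range (fun i => v (A (f i) (g (i + 1)))) (m + 2)] at key
  refine key.trans ?_
  apply mul_le_mul_of_nonneg_right _ (Finset.prod_nonneg fun i _ => v.nonneg _)
  calc c = c ^ 1 := (pow_one c).symm
    _ ≤ c ^ (m + 1) := pow_le_pow_right₀ hc1 (by omega)

/-- **The cycle lemma.** -/
theorem cycle_ratio (hc1 : 1 ≤ c) (h1 : (1 : K) ∈ G)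
    (hmul : ∀ p ∈ G, ∀ q ∈ G, p * q ∈ G) (hneg : ∀ p ∈ G, -p ∈ G)
    (hC : ∀ p ∈ G, ∀ q ∈ G, (p + q = 0 ∨ p + q ∈ G) → v (p) ≤ c * v (q))
    (A : Matrix (Fin r) (Fin r) K)
    (H : ∀ (k : ℕ) (f g : Fin k → Fin r), Function.Injective f → Function.Injective g →
      (A.submatrix f g).det = 0 ∨ (A.submatrix f g).det ∈ G)
    (k : ℕ) : ∀ (f g : ℕ → Fin r), 1 ≤ k → Set.InjOn f (Set.Iio k) →
    Set.InjOn g (Set.Iio k) → g k = g 0 →
    (∀ i < k, A (f i) (g i) ≠ 0) → (∀ i < k, A (f i) (g (i + 1)) ≠ 0) →
    ∏ i ∈ range k, v (A (f i) (g i)) ≤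
      c ^ (k - 1) * ∏ i ∈ range k, v (A (f i) (g (i + 1))) := by
  induction k using Nat.strong_induction_on with
  | _ k ih =>
  intro f g hk hf hg hgk hd hn
  by_cases hch : ∀ i < k, ∀ j < k, j ≠ i → j ≠ i + 1 → ¬ (i + 1 = k ∧ j = 0) →
      A (f i) (g j) = 0
  · rcases Nat.lt_or_ge k 2 with h2 | h2
    · have : k = 1 := by omega
      subst this
      simp [hgk]
    · obtain ⟨m, rfl⟩ := Nat.exists_eq_add_of_le' h2
      exact cyc_case v G c hc1 h1 hmul hneg hC A H m f g hf hg hgk hd hn hch
  · push Not at hch
    obtain ⟨i, hi, j, hj, hji, hji1, hw, hx⟩ := hch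
    have hxpos : 0 < v (A (f i) (g j)) := v.pos hx
    rcases Nat.lt_or_ge i j with hij | hij
    · -- the chord goes forward
      obtain ⟨p, hp, hp1⟩ : ∃ p, j = i + 1 + p ∧ 1 ≤ p := ⟨j - i - 1, by omega, by omega⟩
      obtain ⟨q, hq⟩ : ∃ q, k = i + 1 + p + q := ⟨k - j, by omega⟩
      have I1 := ih (i + 1 + q) (by omega) (fun t => if t ≤ i then f t else f (t + p))
        (fun t => if t ≤ i then g t else g (t + p)) (by omega)
        (by
          intro a ha b hb hab
          simp only [Set.mem_Iio] at ha hb
          dsimp only at hab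
          split_ifs at hab with h3 h4 h4
          · exact hf (Set.mem_Iio.2 (by omega)) (Set.mem_Iio.2 (by omega)) hab
          · have := hf (Set.mem_Iio.2 (by omega)) (Set.mem_Iio.2 (by omega)) hab
            omega
          · have := hf (Set.mem_Iio.2 (by omega)) (Set.mem_Iio.2 (by omega)) hab
            omega
          · have := hf (Set.mem_Iio.2 (by omega)) (Set.mem_Iio.2 (by omega)) hab
            omega)
        (by
          intro a ha b hb hab
          simp only [Set.mem_Iio] at ha hb
          dsimp only at hab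
          split_ifs at hab with h3 h4 h4
          · exact hg (Set.mem_Iio.2 (by omega)) (Set.mem_Iio.2 (by omega)) hab
          · have := hg (Set.mem_Iio.2 (by omega)) (Set.mem_Iio.2 (by omega)) hab
            omega
          · have := hg (Set.mem_Iio.2 (by omega)) (Set.mem_Iio.2 (by omega)) hab
            omega
          · have := hg (Set.mem_Iio.2 (by omega)) (Set.mem_Iio.2 (by omega)) hab
            omega)
        (by
          rw [if_neg (by omega), if_pos (by omega), show i + 1 + q + p = k by omega, hgk])
        (by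
          intro t ht
          try dsimp only
          split_ifs with h3
          · exact hd t (by omega)
          · exact hd (t + p) (by omega))
        (by
          intro t ht
          try dsimp only
          split_ifs with h3 h4 h4
          · exact hn t (by omega)
          · have : t = i := by omega
            subst this
            rw [show t + 1 + p = j by omega]
            exact hx
          · omega
          · rw [show t + 1 + p = t + p + 1 by omega]
            exact hn (t + p) (by omega))
      have I2 := ih (p + 1) (by omega) (fun t => f (i + t))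
        (fun t => if t = 0 then g j else g (i + t)) (by omega)
        (by
          intro a ha b hb hab
          simp only [Set.mem_Iio] at ha hb
          have := hf (Set.mem_Iio.2 (by omega)) (Set.mem_Iio.2 (by omega)) hab
          omega)
        (by
          intro a ha b hb hab
          simp only [Set.mem_Iio] at ha hb
          dsimp only at hab
          split_ifs at hab with h3 h4 h4
          · omega
          · have := hg (Set.mem_Iio.2 (by omega)) (Set.mem_Iio.2 (by omega)) hab
            omega
          · have := hg (Set.mem_Iio.2 (by omega)) (Set.mem_Iio.2 (by omega)) hab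
            omega
          · have := hg (Set.mem_Iio.2 (by omega)) (Set.mem_Iio.2 (by omega)) hab
            omega)
        (by
          rw [if_neg (by omega), if_pos rfl, show i + (p + 1) = j by omega])
        (by
          intro t ht
          try dsimp only
          split_ifs with h3
          · subst h3
            exact hx
          · exact hd (i + t) (by omega))
        (by
          intro t ht
          try dsimp only
          rw [if_neg (by omega), show i + (t + 1) = i + t + 1 by omega]
          exact hn (i + t) (by omega))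
      have D1 : ∏ t ∈ range (i + 1 + q), v (A (if t ≤ i then f t else f (t + p))
          (if t ≤ i then g t else g (t + p))) = (∏ t ∈ range (i + 1), v (A (f t) (g t))) *
          ∏ t ∈ range q, v (A (f (i + 1 + p + t)) (g (i + 1 + p + t))) := by
        rw [prod_range_add]
        congr 1
        · refine prod_congr rfl fun t ht => ?_
          rw [mem_range] at ht
          rw [if_pos (by omega), if_pos (by omega)]
        · refine prod_congr rfl fun t _ => ?_
          rw [if_neg (by omega), if_neg (by omega), show i + 1 + t + p = i + 1 + p + t by omega]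
      have D2 : ∏ t ∈ range (p + 1), v (A (f (i + t)) (if t = 0 then g j else g (i + t))) =
          v (A (f i) (g j)) * ∏ t ∈ range p, v (A (f (i + 1 + t)) (g (i + 1 + t))) := by
        rw [prod_range_succ', mul_comm]
        congr 1
        refine prod_congr rfl fun t _ => ?_
        rw [if_neg (by omega), show i + (t + 1) = i + 1 + t by omega]
      have N1 : ∏ t ∈ range (i + 1 + q), v (A (if t ≤ i then f t else f (t + p))
          (if t + 1 ≤ i then g (t + 1) else g (t + 1 + p))) =
          ((∏ t ∈ range i, v (A (f t) (g (t + 1)))) * v (A (f i) (g j))) *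
          ∏ t ∈ range q, v (A (f (i + 1 + p + t)) (g (i + 1 + p + t + 1))) := by
        rw [prod_range_add, prod_range_succ]
        congr 1
        · congr 1
          · refine prod_congr rfl fun t ht => ?_
            rw [mem_range] at ht
            rw [if_pos (by omega), if_pos (by omega)]
          · rw [if_pos (by omega), if_neg (by omega), show i + 1 + p = j by omega]
        · refine prod_congr rfl fun t _ => ?_
          rw [if_neg (by omega), if_neg (by omega), show i + 1 + t + p = i + 1 + p + t by omega,
            show i + 1 + t + 1 + p = i + 1 + p + t + 1 by omega]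
      have N2 : ∏ t ∈ range (p + 1), v (A (f (i + t)) (if t + 1 = 0 then g j else g (i + (t + 1)))) =
          v (A (f i) (g (i + 1))) * ∏ t ∈ range p, v (A (f (i + 1 + t)) (g (i + 1 + t + 1))) := by
        rw [prod_range_succ', mul_comm]
        congr 1
        refine prod_congr rfl fun t _ => ?_
        rw [if_neg (by omega), show i + (t + 1) = i + 1 + t by omega,
          show i + (t + 1 + 1) = i + 1 + t + 1 by omega]
      have DD : ∏ t ∈ range k, v (A (f t) (g t)) = (∏ t ∈ range (i + 1), v (A (f t) (g t))) *
          (∏ t ∈ range p, v (A (f (i + 1 + t)) (g (i + 1 + t)))) *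
          ∏ t ∈ range q, v (A (f (i + 1 + p + t)) (g (i + 1 + p + t))) := by
        rw [hq, prod_range_add, prod_range_add]
      have NN : ∏ t ∈ range k, v (A (f t) (g (t + 1))) =
          (∏ t ∈ range i, v (A (f t) (g (t + 1)))) * v (A (f i) (g (i + 1))) *
          (∏ t ∈ range p, v (A (f (i + 1 + t)) (g (i + 1 + t + 1)))) *
          ∏ t ∈ range q, v (A (f (i + 1 + p + t)) (g (i + 1 + p + t + 1))) := by
        rw [hq, prod_range_add, prod_range_add, prod_range_succ]
      try dsimp only at I1 I2
      rw [D1, N1] at I1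
      rw [D2, N2] at I2
      rw [DD, NN]
      have hmul2 := mul_le_mul I1 I2 (by positivity) (by positivity)
      have hpow : c ^ (i + 1 + q - 1) * c ^ (p + 1 - 1) = c ^ (k - 1) := by
        rw [← pow_add]
        congr 1
        omega
      rw [← hpow]
      refine le_of_mul_le_mul_left ?_ hxpos
      calc _ = ((∏ t ∈ range (i + 1), v (A (f t) (g t))) *
          ∏ t ∈ range q, v (A (f (i + 1 + p + t)) (g (i + 1 + p + t)))) *
          (v (A (f i) (g j)) * ∏ t ∈ range p, v (A (f (i + 1 + t)) (g (i + 1 + t)))) := by ring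
        _ ≤ _ := hmul2
        _ = _ := by ring
    · -- the chord goes backward
      obtain ⟨p, hp, hp1⟩ : ∃ p, i = j + p ∧ 1 ≤ p := ⟨i - j, by omega, by omega⟩
      obtain ⟨q, hq⟩ : ∃ q, k = j + p + 1 + q := ⟨k - i - 1, by omega⟩
      have I2 := ih (p + 1) (by omega) (fun t => f (j + t))
        (fun t => if t ≤ p then g (j + t) else g j) (by omega)
        (by
          intro a ha b hb hab
          simp only [Set.mem_Iio] at ha hb
          have := hf (Set.mem_Iio.2 (by omega)) (Set.mem_Iio.2 (by omega)) hab
          omega)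
        (by
          intro a ha b hb hab
          simp only [Set.mem_Iio] at ha hb
          dsimp only at hab
          rw [if_pos (by omega), if_pos (by omega)] at hab
          have := hg (Set.mem_Iio.2 (by omega)) (Set.mem_Iio.2 (by omega)) hab
          omega)
        (by
          rw [if_neg (by omega), if_pos (by omega)]
          rfl)
        (by
          intro t ht
          try dsimp only
          rw [if_pos (by omega)]
          exact hd (j + t) (by omega))
        (by
          intro t ht
          try dsimp only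
          split_ifs with h3
          · exact hn (j + t) (by omega)
          · rw [show j + t = i by omega]
            exact hx)
      have I1 := ih (j + 1 + q) (by omega) (fun t => if t < j then f t else f (t + p))
        (fun t => if t ≤ j then g t else g (t + p)) (by omega)
        (by
          intro a ha b hb hab
          simp only [Set.mem_Iio] at ha hb
          dsimp only at hab
          split_ifs at hab with h3 h4 h4
          · exact hf (Set.mem_Iio.2 (by omega)) (Set.mem_Iio.2 (by omega)) hab
          · have := hf (Set.mem_Iio.2 (by omega)) (Set.mem_Iio.2 (by omega)) hab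
            omega
          · have := hf (Set.mem_Iio.2 (by omega)) (Set.mem_Iio.2 (by omega)) hab
            omega
          · have := hf (Set.mem_Iio.2 (by omega)) (Set.mem_Iio.2 (by omega)) hab
            omega)
        (by
          intro a ha b hb hab
          simp only [Set.mem_Iio] at ha hb
          dsimp only at hab
          split_ifs at hab with h3 h4 h4
          · exact hg (Set.mem_Iio.2 (by omega)) (Set.mem_Iio.2 (by omega)) hab
          · have := hg (Set.mem_Iio.2 (by omega)) (Set.mem_Iio.2 (by omega)) hab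
            omega
          · have := hg (Set.mem_Iio.2 (by omega)) (Set.mem_Iio.2 (by omega)) hab
            omega
          · have := hg (Set.mem_Iio.2 (by omega)) (Set.mem_Iio.2 (by omega)) hab
            omega)
        (by
          rw [if_neg (by omega), if_pos (by omega), show j + 1 + q + p = k by omega, hgk])
        (by
          intro t ht
          try dsimp only
          split_ifs with h3 h4 h4
          · exact hd t (by omega)
          · omega
          · have : t = j := by omega
            subst this
            rw [show t + p = i by omega]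
            exact hx
          · exact hd (t + p) (by omega))
        (by
          intro t ht
          try dsimp only
          split_ifs with h3 h4 h4
          · exact hn t (by omega)
          · omega
          · omega
          · rw [show t + 1 + p = t + p + 1 by omega]
            exact hn (t + p) (by omega))
      have D2 : ∏ t ∈ range (p + 1), v (A (f (j + t)) (if t ≤ p then g (j + t) else g j)) =
          ∏ t ∈ range (p + 1), v (A (f (j + t)) (g (j + t))) := by
        refine prod_congr rfl fun t ht => ?_
        rw [mem_range] at ht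
        rw [if_pos (by omega)]
      have N2 : ∏ t ∈ range (p + 1), v (A (f (j + t)) (if t + 1 ≤ p then g (j + (t + 1)) else g j)) =
          (∏ t ∈ range p, v (A (f (j + t)) (g (j + t + 1)))) * v (A (f i) (g j)) := by
        rw [prod_range_succ, if_neg (by omega), show j + p = i by omega]
        congr 1
        refine prod_congr rfl fun t ht => ?_
        rw [mem_range] at ht
        rw [if_pos (by omega)]
        rfl
      have D1 : ∏ t ∈ range (j + 1 + q), v (A (if t < j then f t else f (t + p))
          (if t ≤ j then g t else g (t + p))) = ((∏ t ∈ range j, v (A (f t) (g t))) *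
          v (A (f i) (g j))) *
          ∏ t ∈ range q, v (A (f (j + p + 1 + t)) (g (j + p + 1 + t))) := by
        rw [prod_range_add, prod_range_succ]
        congr 1
        · congr 1
          · refine prod_congr rfl fun t ht => ?_
            rw [mem_range] at ht
            rw [if_pos (by omega), if_pos (by omega)]
          · rw [if_neg (by omega), if_pos (by omega), show j + p = i by omega]
        · refine prod_congr rfl fun t _ => ?_
          rw [if_neg (by omega), if_neg (by omega), show j + 1 + t + p = j + p + 1 + t by omega]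
      have N1 : ∏ t ∈ range (j + 1 + q), v (A (if t < j then f t else f (t + p))
          (if t + 1 ≤ j then g (t + 1) else g (t + 1 + p))) =
          ((∏ t ∈ range j, v (A (f t) (g (t + 1)))) * v (A (f (j + p)) (g (j + p + 1)))) *
          ∏ t ∈ range q, v (A (f (j + p + 1 + t)) (g (j + p + 1 + t + 1))) := by
        rw [prod_range_add, prod_range_succ]
        congr 1
        · congr 1
          · refine prod_congr rfl fun t ht => ?_
            rw [mem_range] at ht
            rw [if_pos (by omega), if_pos (by omega)]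
          · rw [if_neg (by omega), if_neg (by omega), show j + 1 + p = j + p + 1 by omega]
        · refine prod_congr rfl fun t _ => ?_
          rw [if_neg (by omega), if_neg (by omega), show j + 1 + t + p = j + p + 1 + t by omega,
            show j + 1 + t + 1 + p = j + p + 1 + t + 1 by omega]
      have DD : ∏ t ∈ range k, v (A (f t) (g t)) = (∏ t ∈ range j, v (A (f t) (g t))) *
          (∏ t ∈ range (p + 1), v (A (f (j + t)) (g (j + t)))) *
          ∏ t ∈ range q, v (A (f (j + p + 1 + t)) (g (j + p + 1 + t))) := by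
        rw [hq, prod_range_add, show j + p + 1 = j + (p + 1) by omega, prod_range_add]
      have NN : ∏ t ∈ range k, v (A (f t) (g (t + 1))) =
          (∏ t ∈ range j, v (A (f t) (g (t + 1)))) *
          ((∏ t ∈ range p, v (A (f (j + t)) (g (j + t + 1)))) *
            v (A (f (j + p)) (g (j + p + 1)))) *
          ∏ t ∈ range q, v (A (f (j + p + 1 + t)) (g (j + p + 1 + t + 1))) := by
        rw [hq, prod_range_add, show j + p + 1 = j + (p + 1) by omega, prod_range_add,
          prod_range_succ]
        rfl
      try dsimp only at I1 I2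
      rw [D1, N1] at I1
      rw [D2, N2] at I2
      rw [DD, NN]
      have hmul2 := mul_le_mul I1 I2 (by positivity) (by positivity)
      have hpow : c ^ (j + 1 + q - 1) * c ^ (p + 1 - 1) = c ^ (k - 1) := by
        rw [← pow_add]
        congr 1
        omega
      rw [← hpow]
      refine le_of_mul_le_mul_left ?_ hxpos
      calc _ = ((∏ t ∈ range j, v (A (f t) (g t))) * v (A (f i) (g j))) *
          (∏ t ∈ range q, v (A (f (j + p + 1 + t)) (g (j + p + 1 + t)))) *
          (∏ t ∈ range (p + 1), v (A (f (j + t)) (g (j + t)))) := by ring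
        _ ≤ _ := hmul2
        _ = _ := by ring

/-- Ratio of the diagonal and of one cyclic permutation. -/
theorem cycle_perm (hc1 : 1 ≤ c) (h1 : (1 : K) ∈ G)
    (hmul : ∀ p ∈ G, ∀ q ∈ G, p * q ∈ G) (hneg : ∀ p ∈ G, -p ∈ G)
    (hC : ∀ p ∈ G, ∀ q ∈ G, (p + q = 0 ∨ p + q ∈ G) → v p ≤ c * v q)
    (B : Matrix (Fin r) (Fin r) K)
    (H : ∀ (k : ℕ) (f g : Fin k → Fin r), Function.Injective f → Function.Injective g →
      (B.submatrix f g).det = 0 ∨ (B.submatrix f g).det ∈ G)
    (hd : ∀ i, B i i ≠ 0) (ρ : Equiv.Perm (Fin r)) (hρ : ρ.IsCycle) (hn : ∀ i, B i (ρ i) ≠ 0) :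
    ∏ i, v (B i i) ≤ c ^ ρ.support.card * ∏ i, v (B i (ρ i)) := by
  classical
  obtain ⟨i0, hi0, hcyc⟩ := hρ
  have hρ' : ρ.IsCycle := ⟨i0, hi0, hcyc⟩
  have haux : ∀ a b : ℕ, b < orderOf ρ → a ≤ b → (ρ ^ a) i0 = (ρ ^ b) i0 → a = b := by
    intro a b hb hle hab
    have h2 : (ρ ^ (b - a)) i0 = i0 := by
      have : (ρ ^ b) i0 = (ρ ^ a) ((ρ ^ (b - a)) i0) := by
        rw [← Equiv.Perm.mul_apply, ← pow_add]
        congr 2
        omega
      rw [this] at hab
      exact ((ρ ^ a).injective hab).symm
    have h3 : ρ ^ (b - a) = 1 := hρ'.pow_eq_one_iff.2 ⟨i0, hi0, h2⟩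
    have h4 := orderOf_dvd_of_pow_eq_one h3
    rcases Nat.eq_zero_or_pos (b - a) with h5 | h5
    · omega
    · have := Nat.le_of_dvd h5 h4
      omega
  have hinj : Set.InjOn (fun t : ℕ => (ρ ^ t) i0) (Set.Iio (orderOf ρ)) := by
    intro a ha b hb hab
    simp only [Set.mem_Iio] at ha hb
    dsimp only at hab
    rcases le_total a b with h | h
    · exact haux a b hb h hab
    · exact (haux b a ha h hab.symm).symm
  have hpos : 1 ≤ orderOf ρ := orderOf_pos ρ
  have himg : (range (orderOf ρ)).image (fun t : ℕ => (ρ ^ t) i0) = ρ.support := by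
    apply Finset.eq_of_subset_of_card_le
    · intro x hx
      rw [mem_image] at hx
      obtain ⟨t, _, rfl⟩ := hx
      rw [Equiv.Perm.pow_apply_mem_support, Equiv.Perm.mem_support]
      exact hi0
    · rw [Finset.card_image_of_injOn, Finset.card_range, hρ'.orderOf]
      intro a ha b hb hab
      exact hinj (by simpa using ha) (by simpa using hb) hab
  have hprod : ∀ w : Fin r → ℝ, ∏ i ∈ ρ.support, w i =
      ∏ t ∈ range (orderOf ρ), w ((ρ ^ t) i0) := by
    intro w
    rw [← himg, Finset.prod_image]
    intro a ha b hb hab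
    exact hinj (by simpa using ha) (by simpa using hb) hab
  have key := cycle_ratio v G c hc1 h1 hmul hneg hC B H (orderOf ρ)
    (fun t => (ρ ^ t) i0) (fun t => (ρ ^ t) i0) hpos hinj hinj
    (by simp [pow_orderOf_eq_one]) (fun t _ => hd _)
    (fun t _ => by
      rw [pow_succ']
      exact hn _)
  have e1 : ∏ t ∈ range (orderOf ρ), v (B ((ρ ^ t) i0) ((ρ ^ (t + 1)) i0)) =
      ∏ i ∈ ρ.support, v (B i (ρ i)) := by
    rw [hprod]
    refine Finset.prod_congr rfl fun t _ => ?_
    rw [pow_succ']
    rfl
  have e2 : ∏ t ∈ range (orderOf ρ), v (B ((ρ ^ t) i0) ((ρ ^ t) i0)) =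
      ∏ i ∈ ρ.support, v (B i i) := (hprod fun i => v (B i i)).symm
  rw [e1, e2, hρ'.orderOf] at key
  have hs1 : ∏ i, v (B i i) = (∏ i ∈ ρ.support, v (B i i)) * ∏ i ∈ ρ.supportᶜ, v (B i i) :=
    (Finset.prod_mul_prod_compl _ _).symm
  have hs2 : ∏ i, v (B i (ρ i)) =
      (∏ i ∈ ρ.support, v (B i (ρ i))) * ∏ i ∈ ρ.supportᶜ, v (B i i) := by
    rw [← Finset.prod_mul_prod_compl ρ.support]
    congr 1
    refine Finset.prod_congr rfl fun i hi => ?_
    rw [mem_compl, Equiv.Perm.notMem_support] at hi
    rw [hi]
  have hnn : 0 ≤ ∏ i ∈ ρ.supportᶜ, v (B i i) := Finset.prod_nonneg fun i _ => v.nonneg _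
  have hnn2 : 0 ≤ ∏ i ∈ ρ.support, v (B i (ρ i)) := Finset.prod_nonneg fun i _ => v.nonneg _
  rw [hs1, hs2, ← mul_assoc]
  apply mul_le_mul_of_nonneg_right _ hnn
  refine key.trans ?_
  apply mul_le_mul_of_nonneg_right _ hnn2
  exact pow_le_pow_right₀ hc1 (Nat.sub_le _ _)

/-- Ratio of the diagonal and of any permutation. -/
theorem perm_ratio (hc1 : 1 ≤ c) (h1 : (1 : K) ∈ G)
    (hmul : ∀ p ∈ G, ∀ q ∈ G, p * q ∈ G) (hneg : ∀ p ∈ G, -p ∈ G)
    (hC : ∀ p ∈ G, ∀ q ∈ G, (p + q = 0 ∨ p + q ∈ G) → v p ≤ c * v q)
    (B : Matrix (Fin r) (Fin r) K)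
    (H : ∀ (k : ℕ) (f g : Fin k → Fin r), Function.Injective f → Function.Injective g →
      (B.submatrix f g).det = 0 ∨ (B.submatrix f g).det ∈ G)
    (hd : ∀ i, B i i ≠ 0) (ρ : Equiv.Perm (Fin r)) : (∀ i, B i (ρ i) ≠ 0) →
    ∏ i, v (B i i) ≤ c ^ ρ.support.card * ∏ i, v (B i (ρ i)) := by
  classical
  induction ρ using Equiv.Perm.cycle_induction_on with
  | base_one => intro _; simp
  | base_cycles σ hσ => exact fun hn => cycle_perm v G c hc1 h1 hmul hneg hC B H hd σ hσ hn
  | induction_disjoint σ τ hdis _ ihσ ihτ =>
    intro hn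
    have hpt : ∀ i, (σ i = i ∧ (σ * τ) i = τ i) ∨ (τ i = i ∧ (σ * τ) i = σ i) := by
      intro i
      rcases hdis i with h | h
      · left
        refine ⟨h, ?_⟩
        rcases hdis (τ i) with h2 | h2
        · exact h2
        · rw [Equiv.Perm.mul_apply, (τ.injective h2), h]
      · right
        exact ⟨h, by rw [Equiv.Perm.mul_apply, h]⟩
    have hσn : ∀ i, B i (σ i) ≠ 0 := by
      intro i
      rcases hpt i with ⟨h, _⟩ | ⟨_, h⟩
      · rw [h]; exact hd i
      · rw [← h]; exact hn i
    have hτn : ∀ i, B i (τ i) ≠ 0 := by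
      intro i
      rcases hpt i with ⟨_, h⟩ | ⟨h, _⟩
      · rw [← h]; exact hn i
      · rw [h]; exact hd i
    have I1 := ihσ hσn
    have I2 := ihτ hτn
    have hprod : (∏ i, v (B i i)) * ∏ i, v (B i ((σ * τ) i)) =
        (∏ i, v (B i (σ i))) * ∏ i, v (B i (τ i)) := by
      rw [← Finset.prod_mul_distrib, ← Finset.prod_mul_distrib]
      refine Finset.prod_congr rfl fun i _ => ?_
      rcases hpt i with ⟨h, h'⟩ | ⟨h, h'⟩
      · rw [h, h']
      · rw [h, h', mul_comm]
    have hpos : 0 < ∏ i, v (B i i) := Finset.prod_pos fun i _ => v.pos (hd i)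
    rw [hdis.card_support_mul, pow_add]
    refine le_of_mul_le_mul_left ?_ hpos
    calc (∏ i, v (B i i)) * ∏ i, v (B i i)
        ≤ (c ^ σ.support.card * ∏ i, v (B i (σ i))) *
          (c ^ τ.support.card * ∏ i, v (B i (τ i))) :=
          mul_le_mul I1 I2 hpos.le (by positivity)
      _ = (c ^ σ.support.card * c ^ τ.support.card) *
          ((∏ i, v (B i (σ i))) * ∏ i, v (B i (τ i))) := by ring
      _ = (c ^ σ.support.card * c ^ τ.support.card) *
          ((∏ i, v (B i i)) * ∏ i, v (B i ((σ * τ) i))) := by rw [hprod]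
      _ = _ := by ring

/-- **Any two matchings have comparable weights.** -/
theorem match_ratio (hc1 : 1 ≤ c) (h1 : (1 : K) ∈ G)
    (hmul : ∀ p ∈ G, ∀ q ∈ G, p * q ∈ G) (hneg : ∀ p ∈ G, -p ∈ G)
    (hC : ∀ p ∈ G, ∀ q ∈ G, (p + q = 0 ∨ p + q ∈ G) → v p ≤ c * v q)
    (A : Matrix (Fin r) (Fin r) K)
    (H : ∀ (k : ℕ) (f g : Fin k → Fin r), Function.Injective f → Function.Injective g →
      (A.submatrix f g).det = 0 ∨ (A.submatrix f g).det ∈ G)
    (s t : Equiv.Perm (Fin r)) (hs : ∀ i, A i (s i) ≠ 0) (ht : ∀ i, A i (t i) ≠ 0) :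
    ∏ i, v (A i (s i)) ≤ c ^ r * ∏ i, v (A i (t i)) := by
  classical
  have key := perm_ratio v G c hc1 h1 hmul hneg hC (A.submatrix id s)
    (fun k f g hf hg => by
      rw [Matrix.submatrix_submatrix]
      exact H k (id ∘ f) (s ∘ g) hf (s.injective.comp hg))
    (fun i => hs i) (s⁻¹ * t)
    (fun i => by
      rw [Matrix.submatrix_apply, Equiv.Perm.mul_apply, show s (s⁻¹ (t i)) = t i from s.apply_symm_apply (t i)]
      exact ht i)
  have e : ∀ i, (A.submatrix id s) i ((s⁻¹ * t) i) = A i (t i) := by
    intro i
    rw [Matrix.submatrix_apply, Equiv.Perm.mul_apply, show s (s⁻¹ (t i)) = t i from s.apply_symm_apply (t i)]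
    rfl
  simp only [e] at key
  simp only [Matrix.submatrix_apply, id_eq] at key
  refine key.trans ?_
  apply mul_le_mul_of_nonneg_right _ (Finset.prod_nonneg fun i _ => v.nonneg _)
  apply pow_le_pow_right₀ hc1
  calc (s⁻¹ * t).support.card ≤ Fintype.card (Fin r) := Finset.card_le_univ _
    _ = r := Fintype.card_fin r

end Cycle

end Pool.Agent.H23Sw
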