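import Pool.Agent.H23Sw.CycLoc

/-!
# Matchings of a matrix with bounded cross ratios (helper23)
-/

set_option autoImplicit false

namespace Pool.Agent.H23Sw

open Finset

section CycleLoc

variable {r : ℕ} (c : ℝ)

/-- **The cycle lemma.** -/
theorem cycle_ratio_loc (hc1 : 1 ≤ c) (A : Matrix (Fin r) (Fin r) ℂ) (H : Cyc c A)
    (k : ℕ) : ∀ (f g : ℕ → Fin r), 1 ≤ k → Set.InjOn f (Set.Iio k) →
    Set.InjOn g (Set.Iio k) → g k = g 0 →
    (∀ i < k, A (f i) (g i) ≠ 0) → (∀ i < k, A (f i) (g (i + 1)) ≠ 0) →
    ∏ i ∈ range k, ‖A (f i) (g i)‖ ≤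
      c ^ (k - 1) * ∏ i ∈ range k, ‖A (f i) (g (i + 1))‖ := by
  induction k using Nat.strong_induction_on with
  | _ k ih =>
  intro f g hk hf hg hgk hd hn
  by_cases hch : ∀ i < k, ∀ j < k, j ≠ i → j ≠ i + 1 → ¬ (i + 1 = k ∧ j = 0) →
      A (f i) (g j) = 0
  · rcases Nat.lt_or_ge k 2 with h2 | h2
    · have : k = 1 := by omega
      subst this
      simp [hgk]
    · obtain ⟨m, rfl⟩ := Nat.exists_eq_add_of_le' h2
      refine (H m f g hf hg hgk hd hn hch).trans ?_
      apply mul_le_mul_of_nonneg_right _ (Finset.prod_nonneg fun i _ => norm_nonneg _)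
      calc c = c ^ 1 := (pow_one c).symm
        _ ≤ c ^ (m + 1) := pow_le_pow_right₀ hc1 (by omega)
  · push Not at hch
    obtain ⟨i, hi, j, hj, hji, hji1, hw, hx⟩ := hch
    have hxpos : 0 < ‖A (f i) (g j)‖ := norm_pos_iff.2 hx
    rcases Nat.lt_or_ge i j with hij | hij
    · -- the chord goes forward
      obtain ⟨p, hp, hp1⟩ : ∃ p, j = i + 1 + p ∧ 1 ≤ p := ⟨j - i - 1, by omega, by omega⟩
      obtain ⟨q, hq⟩ : ∃ q, k = i + 1 + p + q := ⟨k - j, by omega⟩
      have I1 := ih (i + 1 + q) (by omega) (fun t => if t ≤ i then f t else f (t + p))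
        (fun t => if t ≤ i then g t else g (t + p)) (by omega)
        (by
          intro a ha b hb hab
          simp only [Set.mem_Iio] at ha hb
          dsimp only at hab
          split_ifs at hab with h3 h4 h4
          · exact hf (Set.mem_Iio.2 (by omega)) (Set.mem_Iio.2 (by omega)) hab
          · have := hf (Set.mem_Iio.2 (by omega)) (Set.mem_Iio.2 (by omega)) hab
            omega
          · have := hf (Set.mem_Iio.2 (by omega)) (Set.mem_Iio.2 (by omega)) hab
            omega
          · have := hf (Set.mem_Iio.2 (by omega)) (Set.mem_Iio.2 (by omega)) hab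
            omega)
        (by
          intro a ha b hb hab
          simp only [Set.mem_Iio] at ha hb
          dsimp only at hab
          split_ifs at hab with h3 h4 h4
          · exact hg (Set.mem_Iio.2 (by omega)) (Set.mem_Iio.2 (by omega)) hab
          · have := hg (Set.mem_Iio.2 (by omega)) (Set.mem_Iio.2 (by omega)) hab
            omega
          · have := hg (Set.mem_Iio.2 (by omega)) (Set.mem_Iio.2 (by omega)) hab
            omega
          · have := hg (Set.mem_Iio.2 (by omega)) (Set.mem_Iio.2 (by omega)) hab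
            omega)
        (by
          rw [if_neg (by omega), if_pos (by omega), show i + 1 + q + p = k by omega, hgk])
        (by
          intro t ht
          try dsimp only
          split_ifs with h3
          · exact hd t (by omega)
          · exact hd (t + p) (by omega))
        (by
          intro t ht
          try dsimp only
          split_ifs with h3 h4 h4
          · exact hn t (by omega)
          · have : t = i := by omega
            subst this
            rw [show t + 1 + p = j by omega]
            exact hx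
          · omega
          · rw [show t + 1 + p = t + p + 1 by omega]
            exact hn (t + p) (by omega))
      have I2 := ih (p + 1) (by omega) (fun t => f (i + t))
        (fun t => if t = 0 then g j else g (i + t)) (by omega)
        (by
          intro a ha b hb hab
          simp only [Set.mem_Iio] at ha hb
          have := hf (Set.mem_Iio.2 (by omega)) (Set.mem_Iio.2 (by omega)) hab
          omega)
        (by
          intro a ha b hb hab
          simp only [Set.mem_Iio] at ha hb
          dsimp only at hab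
          split_ifs at hab with h3 h4 h4
          · omega
          · have := hg (Set.mem_Iio.2 (by omega)) (Set.mem_Iio.2 (by omega)) hab
            omega
          · have := hg (Set.mem_Iio.2 (by omega)) (Set.mem_Iio.2 (by omega)) hab
            omega
          · have := hg (Set.mem_Iio.2 (by omega)) (Set.mem_Iio.2 (by omega)) hab
            omega)
        (by
          rw [if_neg (by omega), if_pos rfl, show i + (p + 1) = j by omega])
        (by
          intro t ht
          try dsimp only
          split_ifs with h3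
          · subst h3
            exact hx
          · exact hd (i + t) (by omega))
        (by
          intro t ht
          try dsimp only
          rw [if_neg (by omega), show i + (t + 1) = i + t + 1 by omega]
          exact hn (i + t) (by omega))
      have D1 : ∏ t ∈ range (i + 1 + q), ‖A (if t ≤ i then f t else f (t + p))
          (if t ≤ i then g t else g (t + p))‖ = (∏ t ∈ range (i + 1), ‖A (f t) (g t)‖) *
          ∏ t ∈ range q, ‖A (f (i + 1 + p + t)) (g (i + 1 + p + t))‖ := by
        rw [prod_range_add]
        congr 1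
        · refine prod_congr rfl fun t ht => ?_
          rw [mem_range] at ht
          rw [if_pos (by omega), if_pos (by omega)]
        · refine prod_congr rfl fun t _ => ?_
          rw [if_neg (by omega), if_neg (by omega), show i + 1 + t + p = i + 1 + p + t by omega]
      have D2 : ∏ t ∈ range (p + 1), ‖A (f (i + t)) (if t = 0 then g j else g (i + t))‖ =
          ‖A (f i) (g j)‖ * ∏ t ∈ range p, ‖A (f (i + 1 + t)) (g (i + 1 + t))‖ := by
        rw [prod_range_succ', mul_comm]
        congr 1
        refine prod_congr rfl fun t _ => ?_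
        rw [if_neg (by omega), show i + (t + 1) = i + 1 + t by omega]
      have N1 : ∏ t ∈ range (i + 1 + q), ‖A (if t ≤ i then f t else f (t + p))
          (if t + 1 ≤ i then g (t + 1) else g (t + 1 + p))‖ =
          ((∏ t ∈ range i, ‖A (f t) (g (t + 1))‖) * ‖A (f i) (g j)‖) *
          ∏ t ∈ range q, ‖A (f (i + 1 + p + t)) (g (i + 1 + p + t + 1))‖ := by
        rw [prod_range_add, prod_range_succ]
        congr 1
        · congr 1
          · refine prod_congr rfl fun t ht => ?_
            rw [mem_range] at ht
            rw [if_pos (by omega), if_pos (by omega)]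
          · rw [if_pos (by omega), if_neg (by omega), show i + 1 + p = j by omega]
        · refine prod_congr rfl fun t _ => ?_
          rw [if_neg (by omega), if_neg (by omega), show i + 1 + t + p = i + 1 + p + t by omega,
            show i + 1 + t + 1 + p = i + 1 + p + t + 1 by omega]
      have N2 : ∏ t ∈ range (p + 1), ‖A (f (i + t)) (if t + 1 = 0 then g j else g (i + (t + 1)))‖ =
          ‖A (f i) (g (i + 1))‖ * ∏ t ∈ range p, ‖A (f (i + 1 + t)) (g (i + 1 + t + 1))‖ := by
        rw [prod_range_succ', mul_comm]
        congr 1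
        refine prod_congr rfl fun t _ => ?_
        rw [if_neg (by omega), show i + (t + 1) = i + 1 + t by omega,
          show i + (t + 1 + 1) = i + 1 + t + 1 by omega]
      have DD : ∏ t ∈ range k, ‖A (f t) (g t)‖ = (∏ t ∈ range (i + 1), ‖A (f t) (g t)‖) *
          (∏ t ∈ range p, ‖A (f (i + 1 + t)) (g (i + 1 + t))‖) *
          ∏ t ∈ range q, ‖A (f (i + 1 + p + t)) (g (i + 1 + p + t))‖ := by
        rw [hq, prod_range_add, prod_range_add]
      have NN : ∏ t ∈ range k, ‖A (f t) (g (t + 1))‖ =
          (∏ t ∈ range i, ‖A (f t) (g (t + 1))‖) * ‖A (f i) (g (i + 1))‖ *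
          (∏ t ∈ range p, ‖A (f (i + 1 + t)) (g (i + 1 + t + 1))‖) *
          ∏ t ∈ range q, ‖A (f (i + 1 + p + t)) (g (i + 1 + p + t + 1))‖ := by
        rw [hq, prod_range_add, prod_range_add, prod_range_succ]
      try dsimp only at I1 I2
      rw [D1, N1] at I1
      rw [D2, N2] at I2
      rw [DD, NN]
      have hmul2 := mul_le_mul I1 I2 (by positivity) (by positivity)
      have hpow : c ^ (i + 1 + q - 1) * c ^ (p + 1 - 1) = c ^ (k - 1) := by
        rw [← pow_add]
        congr 1
        omega
      rw [← hpow]
      refine le_of_mul_le_mul_left ?_ hxpos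
      calc _ = ((∏ t ∈ range (i + 1), ‖A (f t) (g t)‖) *
          ∏ t ∈ range q, ‖A (f (i + 1 + p + t)) (g (i + 1 + p + t))‖) *
          (‖A (f i) (g j)‖ * ∏ t ∈ range p, ‖A (f (i + 1 + t)) (g (i + 1 + t))‖) := by ring
        _ ≤ _ := hmul2
        _ = _ := by ring
    · -- the chord goes backward
      obtain ⟨p, hp, hp1⟩ : ∃ p, i = j + p ∧ 1 ≤ p := ⟨i - j, by omega, by omega⟩
      obtain ⟨q, hq⟩ : ∃ q, k = j + p + 1 + q := ⟨k - i - 1, by omega⟩
      have I2 := ih (p + 1) (by omega) (fun t => f (j + t))
        (fun t => if t ≤ p then g (j + t) else g j) (by omega)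
        (by
          intro a ha b hb hab
          simp only [Set.mem_Iio] at ha hb
          have := hf (Set.mem_Iio.2 (by omega)) (Set.mem_Iio.2 (by omega)) hab
          omega)
        (by
          intro a ha b hb hab
          simp only [Set.mem_Iio] at ha hb
          dsimp only at hab
          rw [if_pos (by omega), if_pos (by omega)] at hab
          have := hg (Set.mem_Iio.2 (by omega)) (Set.mem_Iio.2 (by omega)) hab
          omega)
        (by
          rw [if_neg (by omega), if_pos (by omega)]
          rfl)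
        (by
          intro t ht
          try dsimp only
          rw [if_pos (by omega)]
          exact hd (j + t) (by omega))
        (by
          intro t ht
          try dsimp only
          split_ifs with h3
          · exact hn (j + t) (by omega)
          · rw [show j + t = i by omega]
            exact hx)
      have I1 := ih (j + 1 + q) (by omega) (fun t => if t < j then f t else f (t + p))
        (fun t => if t ≤ j then g t else g (t + p)) (by omega)
        (by
          intro a ha b hb hab
          simp only [Set.mem_Iio] at ha hb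
          dsimp only at hab
          split_ifs at hab with h3 h4 h4
          · exact hf (Set.mem_Iio.2 (by omega)) (Set.mem_Iio.2 (by omega)) hab
          · have := hf (Set.mem_Iio.2 (by omega)) (Set.mem_Iio.2 (by omega)) hab
            omega
          · have := hf (Set.mem_Iio.2 (by omega)) (Set.mem_Iio.2 (by omega)) hab
            omega
          · have := hf (Set.mem_Iio.2 (by omega)) (Set.mem_Iio.2 (by omega)) hab
            omega)
        (by
          intro a ha b hb hab
          simp only [Set.mem_Iio] at ha hb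
          dsimp only at hab
          split_ifs at hab with h3 h4 h4
          · exact hg (Set.mem_Iio.2 (by omega)) (Set.mem_Iio.2 (by omega)) hab
          · have := hg (Set.mem_Iio.2 (by omega)) (Set.mem_Iio.2 (by omega)) hab
            omega
          · have := hg (Set.mem_Iio.2 (by omega)) (Set.mem_Iio.2 (by omega)) hab
            omega
          · have := hg (Set.mem_Iio.2 (by omega)) (Set.mem_Iio.2 (by omega)) hab
            omega)
        (by
          rw [if_neg (by omega), if_pos (by omega), show j + 1 + q + p = k by omega, hgk])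
        (by
          intro t ht
          try dsimp only
          split_ifs with h3 h4 h4
          · exact hd t (by omega)
          · omega
          · have : t = j := by omega
            subst this
            rw [show t + p = i by omega]
            exact hx
          · exact hd (t + p) (by omega))
        (by
          intro t ht
          try dsimp only
          split_ifs with h3 h4 h4
          · exact hn t (by omega)
          · omega
          · omega
          · rw [show t + 1 + p = t + p + 1 by omega]
            exact hn (t + p) (by omega))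
      have D2 : ∏ t ∈ range (p + 1), ‖A (f (j + t)) (if t ≤ p then g (j + t) else g j)‖ =
          ∏ t ∈ range (p + 1), ‖A (f (j + t)) (g (j + t))‖ := by
        refine prod_congr rfl fun t ht => ?_
        rw [mem_range] at ht
        rw [if_pos (by omega)]
      have N2 : ∏ t ∈ range (p + 1), ‖A (f (j + t)) (if t + 1 ≤ p then g (j + (t + 1)) else g j)‖ =
          (∏ t ∈ range p, ‖A (f (j + t)) (g (j + t + 1))‖) * ‖A (f i) (g j)‖ := by
        rw [prod_range_succ, if_neg (by omega), show j + p = i by omega]
        congr 1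
        refine prod_congr rfl fun t ht => ?_
        rw [mem_range] at ht
        rw [if_pos (by omega)]
        rfl
      have D1 : ∏ t ∈ range (j + 1 + q), ‖A (if t < j then f t else f (t + p))
          (if t ≤ j then g t else g (t + p))‖ = ((∏ t ∈ range j, ‖A (f t) (g t)‖) *
          ‖A (f i) (g j)‖) *
          ∏ t ∈ range q, ‖A (f (j + p + 1 + t)) (g (j + p + 1 + t))‖ := by
        rw [prod_range_add, prod_range_succ]
        congr 1
        · congr 1
          · refine prod_congr rfl fun t ht => ?_
            rw [mem_range] at ht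
            rw [if_pos (by omega), if_pos (by omega)]
          · rw [if_neg (by omega), if_pos (by omega), show j + p = i by omega]
        · refine prod_congr rfl fun t _ => ?_
          rw [if_neg (by omega), if_neg (by omega), show j + 1 + t + p = j + p + 1 + t by omega]
      have N1 : ∏ t ∈ range (j + 1 + q), ‖A (if t < j then f t else f (t + p))
          (if t + 1 ≤ j then g (t + 1) else g (t + 1 + p))‖ =
          ((∏ t ∈ range j, ‖A (f t) (g (t + 1))‖) * ‖A (f (j + p)) (g (j + p + 1))‖) *
          ∏ t ∈ range q, ‖A (f (j + p + 1 + t)) (g (j + p + 1 + t + 1))‖ := by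
        rw [prod_range_add, prod_range_succ]
        congr 1
        · congr 1
          · refine prod_congr rfl fun t ht => ?_
            rw [mem_range] at ht
            rw [if_pos (by omega), if_pos (by omega)]
          · rw [if_neg (by omega), if_neg (by omega), show j + 1 + p = j + p + 1 by omega]
        · refine prod_congr rfl fun t _ => ?_
          rw [if_neg (by omega), if_neg (by omega), show j + 1 + t + p = j + p + 1 + t by omega,
            show j + 1 + t + 1 + p = j + p + 1 + t + 1 by omega]
      have DD : ∏ t ∈ range k, ‖A (f t) (g t)‖ = (∏ t ∈ range j, ‖A (f t) (g t)‖) *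
          (∏ t ∈ range (p + 1), ‖A (f (j + t)) (g (j + t))‖) *
          ∏ t ∈ range q, ‖A (f (j + p + 1 + t)) (g (j + p + 1 + t))‖ := by
        rw [hq, prod_range_add, show j + p + 1 = j + (p + 1) by omega, prod_range_add]
      have NN : ∏ t ∈ range k, ‖A (f t) (g (t + 1))‖ =
          (∏ t ∈ range j, ‖A (f t) (g (t + 1))‖) *
          ((∏ t ∈ range p, ‖A (f (j + t)) (g (j + t + 1))‖) *
            ‖A (f (j + p)) (g (j + p + 1))‖) *
          ∏ t ∈ range q, ‖A (f (j + p + 1 + t)) (g (j + p + 1 + t + 1))‖ := by
        rw [hq, prod_range_add, show j + p + 1 = j + (p + 1) by omega, prod_range_add,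
          prod_range_succ]
        rfl
      try dsimp only at I1 I2
      rw [D1, N1] at I1
      rw [D2, N2] at I2
      rw [DD, NN]
      have hmul2 := mul_le_mul I1 I2 (by positivity) (by positivity)
      have hpow : c ^ (j + 1 + q - 1) * c ^ (p + 1 - 1) = c ^ (k - 1) := by
        rw [← pow_add]
        congr 1
        omega
      rw [← hpow]
      refine le_of_mul_le_mul_left ?_ hxpos
      calc _ = ((∏ t ∈ range j, ‖A (f t) (g t)‖) * ‖A (f i) (g j)‖) *
          (∏ t ∈ range q, ‖A (f (j + p + 1 + t)) (g (j + p + 1 + t))‖) *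
          (∏ t ∈ range (p + 1), ‖A (f (j + t)) (g (j + t))‖) := by ring
        _ ≤ _ := hmul2
        _ = _ := by ring

/-- Ratio of the diagonal and of one cyclic permutation. -/
theorem cycle_perm_loc (hc1 : 1 ≤ c) (B : Matrix (Fin r) (Fin r) ℂ) (H : Cyc c B)
    (hd : ∀ i, B i i ≠ 0) (ρ : Equiv.Perm (Fin r)) (hρ : ρ.IsCycle) (hn : ∀ i, B i (ρ i) ≠ 0) :
    ∏ i, ‖B i i‖ ≤ c ^ ρ.support.card * ∏ i, ‖B i (ρ i)‖ := by
  classical
  obtain ⟨i0, hi0, hcyc⟩ := hρ
  have hρ' : ρ.IsCycle := ⟨i0, hi0, hcyc⟩
  have haux : ∀ a b : ℕ, b < orderOf ρ → a ≤ b → (ρ ^ a) i0 = (ρ ^ b) i0 → a = b := by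
    intro a b hb hle hab
    have h2 : (ρ ^ (b - a)) i0 = i0 := by
      have : (ρ ^ b) i0 = (ρ ^ a) ((ρ ^ (b - a)) i0) := by
        rw [← Equiv.Perm.mul_apply, ← pow_add]
        congr 2
        omega
      rw [this] at hab
      exact ((ρ ^ a).injective hab).symm
    have h3 : ρ ^ (b - a) = 1 := hρ'.pow_eq_one_iff.2 ⟨i0, hi0, h2⟩
    have h4 := orderOf_dvd_of_pow_eq_one h3
    rcases Nat.eq_zero_or_pos (b - a) with h5 | h5
    · omega
    · have := Nat.le_of_dvd h5 h4
      omega
  have hinj : Set.InjOn (fun t : ℕ => (ρ ^ t) i0) (Set.Iio (orderOf ρ)) := by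
    intro a ha b hb hab
    simp only [Set.mem_Iio] at ha hb
    dsimp only at hab
    rcases le_total a b with h | h
    · exact haux a b hb h hab
    · exact (haux b a ha h hab.symm).symm
  have hpos : 1 ≤ orderOf ρ := orderOf_pos ρ
  have himg : (range (orderOf ρ)).image (fun t : ℕ => (ρ ^ t) i0) = ρ.support := by
    apply Finset.eq_of_subset_of_card_le
    · intro x hx
      rw [mem_image] at hx
      obtain ⟨t, _, rfl⟩ := hx
      rw [Equiv.Perm.pow_apply_mem_support, Equiv.Perm.mem_support]
      exact hi0
    · rw [Finset.card_image_of_injOn, Finset.card_range, hρ'.orderOf]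
      intro a ha b hb hab
      exact hinj (by simpa using ha) (by simpa using hb) hab
  have hprod : ∀ w : Fin r → ℝ, ∏ i ∈ ρ.support, w i =
      ∏ t ∈ range (orderOf ρ), w ((ρ ^ t) i0) := by
    intro w
    rw [← himg, Finset.prod_image]
    intro a ha b hb hab
    exact hinj (by simpa using ha) (by simpa using hb) hab
  have key := cycle_ratio_loc c hc1 B H (orderOf ρ)
    (fun t => (ρ ^ t) i0) (fun t => (ρ ^ t) i0) hpos hinj hinj
    (by simp [pow_orderOf_eq_one]) (fun t _ => hd _)
    (fun t _ => by
      rw [pow_succ']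
      exact hn _)
  have e1 : ∏ t ∈ range (orderOf ρ), ‖B ((ρ ^ t) i0) ((ρ ^ (t + 1)) i0)‖ =
      ∏ i ∈ ρ.support, ‖B i (ρ i)‖ := by
    rw [hprod]
    refine Finset.prod_congr rfl fun t _ => ?_
    rw [pow_succ']
    rfl
  have e2 : ∏ t ∈ range (orderOf ρ), ‖B ((ρ ^ t) i0) ((ρ ^ t) i0)‖ =
      ∏ i ∈ ρ.support, ‖B i i‖ := (hprod fun i => ‖B i i‖).symm
  rw [e1, e2, hρ'.orderOf] at key
  have hs1 : ∏ i, ‖B i i‖ = (∏ i ∈ ρ.support, ‖B i i‖) * ∏ i ∈ ρ.supportᶜ, ‖B i i‖ :=
    (Finset.prod_mul_prod_compl _ _).symm
  have hs2 : ∏ i, ‖B i (ρ i)‖ =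
      (∏ i ∈ ρ.support, ‖B i (ρ i)‖) * ∏ i ∈ ρ.supportᶜ, ‖B i i‖ := by
    rw [← Finset.prod_mul_prod_compl ρ.support]
    congr 1
    refine Finset.prod_congr rfl fun i hi => ?_
    rw [mem_compl, Equiv.Perm.notMem_support] at hi
    rw [hi]
  have hnn : 0 ≤ ∏ i ∈ ρ.supportᶜ, ‖B i i‖ := Finset.prod_nonneg fun i _ => norm_nonneg _
  have hnn2 : 0 ≤ ∏ i ∈ ρ.support, ‖B i (ρ i)‖ := Finset.prod_nonneg fun i _ => norm_nonneg _
  rw [hs1, hs2, ← mul_assoc]
  apply mul_le_mul_of_nonneg_right _ hnn
  refine key.trans ?_
  apply mul_le_mul_of_nonneg_right _ hnn2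
  exact pow_le_pow_right₀ hc1 (Nat.sub_le _ _)

/-- Ratio of the diagonal and of any permutation. -/
theorem perm_ratio_loc (hc1 : 1 ≤ c) (B : Matrix (Fin r) (Fin r) ℂ) (H : Cyc c B)
    (hd : ∀ i, B i i ≠ 0) (ρ : Equiv.Perm (Fin r)) : (∀ i, B i (ρ i) ≠ 0) →
    ∏ i, ‖B i i‖ ≤ c ^ ρ.support.card * ∏ i, ‖B i (ρ i)‖ := by
  classical
  induction ρ using Equiv.Perm.cycle_induction_on with
  | base_one => intro _; simp
  | base_cycles σ hσ => exact fun hn => cycle_perm_loc c hc1 B H hd σ hσ hn
  | induction_disjoint σ τ hdis _ ihσ ihτ =>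
    intro hn
    have hpt : ∀ i, (σ i = i ∧ (σ * τ) i = τ i) ∨ (τ i = i ∧ (σ * τ) i = σ i) := by
      intro i
      rcases hdis i with h | h
      · left
        refine ⟨h, ?_⟩
        rcases hdis (τ i) with h2 | h2
        · exact h2
        · rw [Equiv.Perm.mul_apply, (τ.injective h2), h]
      · right
        exact ⟨h, by rw [Equiv.Perm.mul_apply, h]⟩
    have hσn : ∀ i, B i (σ i) ≠ 0 := by
      intro i
      rcases hpt i with ⟨h, _⟩ | ⟨_, h⟩
      · rw [h]; exact hd i
      · rw [← h]; exact hn i
    have hτn : ∀ i, B i (τ i) ≠ 0 := by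
      intro i
      rcases hpt i with ⟨_, h⟩ | ⟨h, _⟩
      · rw [← h]; exact hn i
      · rw [h]; exact hd i
    have I1 := ihσ hσn
    have I2 := ihτ hτn
    have hprod : (∏ i, ‖B i i‖) * ∏ i, ‖B i ((σ * τ) i)‖ =
        (∏ i, ‖B i (σ i)‖) * ∏ i, ‖B i (τ i)‖ := by
      rw [← Finset.prod_mul_distrib, ← Finset.prod_mul_distrib]
      refine Finset.prod_congr rfl fun i _ => ?_
      rcases hpt i with ⟨h, h'⟩ | ⟨h, h'⟩
      · rw [h, h']
      · rw [h, h', mul_comm]
    have hpos : 0 < ∏ i, ‖B i i‖ := Finset.prod_pos fun i _ => norm_pos_iff.2 (hd i)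
    rw [hdis.card_support_mul, pow_add]
    refine le_of_mul_le_mul_left ?_ hpos
    calc (∏ i, ‖B i i‖) * ∏ i, ‖B i i‖
        ≤ (c ^ σ.support.card * ∏ i, ‖B i (σ i)‖) *
          (c ^ τ.support.card * ∏ i, ‖B i (τ i)‖) :=
          mul_le_mul I1 I2 hpos.le (by positivity)
      _ = (c ^ σ.support.card * c ^ τ.support.card) *
          ((∏ i, ‖B i (σ i)‖) * ∏ i, ‖B i (τ i)‖) := by ring
      _ = (c ^ σ.support.card * c ^ τ.support.card) *
          ((∏ i, ‖B i i‖) * ∏ i, ‖B i ((σ * τ) i)‖) := by rw [hprod]
      _ = _ := by ring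

/-- **Any two matchings have comparable weights.** -/
theorem match_ratio_loc (hc1 : 1 ≤ c) (A : Matrix (Fin r) (Fin r) ℂ) (H : Cyc c A)
    (s t : Equiv.Perm (Fin r)) (hs : ∀ i, A i (s i) ≠ 0) (ht : ∀ i, A i (t i) ≠ 0) :
    ∏ i, ‖A i (s i)‖ ≤ c ^ r * ∏ i, ‖A i (t i)‖ := by
  classical
  have key := perm_ratio_loc c hc1 (A.submatrix id s)
    (fun m f g hf hg hgk hd hn hch => H m f (fun i => s (g i)) hf
      (fun a ha b hb hab => hg ha hb (s.injective hab)) (congrArg s hgk) hd hn hch)
    (fun i => hs i) (s⁻¹ * t)
    (fun i => by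
      rw [Matrix.submatrix_apply, Equiv.Perm.mul_apply, show s (s⁻¹ (t i)) = t i from s.apply_symm_apply (t i)]
      exact ht i)
  have e : ∀ i, (A.submatrix id s) i ((s⁻¹ * t) i) = A i (t i) := by
    intro i
    rw [Matrix.submatrix_apply, Equiv.Perm.mul_apply, show s (s⁻¹ (t i)) = t i from s.apply_symm_apply (t i)]
    rfl
  simp only [e] at key
  simp only [Matrix.submatrix_apply, id_eq] at key
  refine key.trans ?_
  apply mul_le_mul_of_nonneg_right _ (Finset.prod_nonneg fun i _ => norm_nonneg _)
  apply pow_le_pow_right₀ hc1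
  calc (s⁻¹ * t).support.card ≤ Fintype.card (Fin r) := Finset.card_le_univ _
    _ = r := Fintype.card_fin r

/-- Two matchings of a matrix with bounded cross ratios. -/
theorem match_ratio_of_loc (hc1 : 1 ≤ c) (A : Matrix (Fin r) (Fin r) ℂ) (H : Loc c A)
    (s t : Equiv.Perm (Fin r)) (hs : ∀ i, A i (s i) ≠ 0) (ht : ∀ i, A i (t i) ≠ 0) :
    ∏ i, ‖A i (s i)‖ ≤ c ^ r * ∏ i, ‖A i (t i)‖ :=
  match_ratio_loc c hc1 A (loc_cyc H) s t hs ht

end CycleLoc

end Pool.Agent.H23Sw
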