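import Mathlib

/-!
# Matrices with bounded cross ratios (helper23)
-/

set_option autoImplicit false

namespace Pool.Agent.H23Sw

/-- All ratios of two-exchanges between the minors of `A` are at most `c`. -/
def Loc (c : ℝ) {n : ℕ} (A : Matrix (Fin n) (Fin n) ℂ) : Prop :=
  ∀ (k : ℕ) (f g : Fin k → Fin n) (a a' b b' : Fin n),
    Function.Injective (Fin.cons a (Fin.cons a' f : Fin (k + 1) → Fin n) : Fin (k + 2) → Fin n) →
    Function.Injective (Fin.cons b (Fin.cons b' g : Fin (k + 1) → Fin n) : Fin (k + 2) → Fin n) →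
    (A.submatrix f g).det ≠ 0 →
    (A.submatrix (Fin.cons a f : Fin (k + 1) → Fin n) (Fin.cons b g : Fin (k + 1) → Fin n)).det
      ≠ 0 →
    (A.submatrix (Fin.cons a' f : Fin (k + 1) → Fin n) (Fin.cons b' g : Fin (k + 1) → Fin n)).det
      ≠ 0 →
    ((A.submatrix (Fin.cons a f : Fin (k + 1) → Fin n) (Fin.cons b' g : Fin (k + 1) → Fin n)).det
        ≠ 0 →
      (A.submatrix (Fin.cons a' f : Fin (k + 1) → Fin n) (Fin.cons b g : Fin (k + 1) → Fin n)).det
        ≠ 0 →
      ‖(A.submatrix (Fin.cons a f : Fin (k + 1) → Fin n)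
          (Fin.cons b g : Fin (k + 1) → Fin n)).det *
        (A.submatrix (Fin.cons a' f : Fin (k + 1) → Fin n)
          (Fin.cons b' g : Fin (k + 1) → Fin n)).det‖ ≤
      c * ‖(A.submatrix (Fin.cons a f : Fin (k + 1) → Fin n)
          (Fin.cons b' g : Fin (k + 1) → Fin n)).det *
        (A.submatrix (Fin.cons a' f : Fin (k + 1) → Fin n)
          (Fin.cons b g : Fin (k + 1) → Fin n)).det‖) ∧
    ((A.submatrix (Fin.cons a (Fin.cons a' f : Fin (k + 1) → Fin n) : Fin (k + 2) → Fin n)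
        (Fin.cons b (Fin.cons b' g : Fin (k + 1) → Fin n) : Fin (k + 2) → Fin n)).det ≠ 0 →
      ‖(A.submatrix (Fin.cons a f : Fin (k + 1) → Fin n)
          (Fin.cons b g : Fin (k + 1) → Fin n)).det *
        (A.submatrix (Fin.cons a' f : Fin (k + 1) → Fin n)
          (Fin.cons b' g : Fin (k + 1) → Fin n)).det‖ ≤
      c * ‖(A.submatrix (Fin.cons a (Fin.cons a' f : Fin (k + 1) → Fin n) : Fin (k + 2) → Fin n)
          (Fin.cons b (Fin.cons b' g : Fin (k + 1) → Fin n) : Fin (k + 2) → Fin n)).det *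
        (A.submatrix f g).det‖)

end Pool.Agent.H23Sw
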