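import Pool.Agent.H23Sw.Loc

/-!
# A chordless cycle in a matrix with bounded cross ratios (helper23)
-/

set_option autoImplicit false

namespace Pool.Agent.H23Sw

open Finset

variable {r : ℕ}

/-- For all chordless cycles the two matchings have comparable weights. -/
def Cyc (c : ℝ) (A : Matrix (Fin r) (Fin r) ℂ) : Prop :=
  ∀ (m : ℕ) (f g : ℕ → Fin r), Set.InjOn f (Set.Iio (m + 2)) → Set.InjOn g (Set.Iio (m + 2)) →
    g (m + 2) = g 0 → (∀ i < m + 2, A (f i) (g i) ≠ 0) →
    (∀ i < m + 2, A (f i) (g (i + 1)) ≠ 0) →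
    (∀ i < m + 2, ∀ j < m + 2, j ≠ i → j ≠ i + 1 → ¬ (i + 1 = m + 2 ∧ j = 0) →
      A (f i) (g j) = 0) →
    ∏ i ∈ range (m + 2), ‖A (f i) (g i)‖ ≤ c * ∏ i ∈ range (m + 2), ‖A (f i) (g (i + 1))‖

theorem cons_cons_inj (m : ℕ) (f : ℕ → Fin r) (hf : Set.InjOn f (Set.Iio (m + 2))) :
    Function.Injective (Fin.cons (f m) (Fin.cons (f (m + 1)) (fun i : Fin m => f i) :
      Fin (m + 1) → Fin r) : Fin (m + 2) → Fin r) := by
  rw [Fin.cons_injective_iff, Fin.cons_injective_iff]
  refine ⟨?_, ?_, ?_⟩
  · rintro ⟨i, hi⟩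
    revert hi
    refine Fin.cases ?_ (fun i => ?_) i
    · intro hi
      rw [Fin.cons_zero] at hi
      have := hf (Set.mem_Iio.2 (by omega)) (Set.mem_Iio.2 (by omega)) hi
      omega
    · intro hi
      rw [Fin.cons_succ] at hi
      have h1 := i.isLt
      have := hf (Set.mem_Iio.2 (by omega)) (Set.mem_Iio.2 (by omega)) hi
      omega
  · rintro ⟨i, hi⟩
    have := hf (Set.mem_Iio.2 (by omega)) (Set.mem_Iio.2 (by omega)) hi
    omega
  · intro i j hij
    have hi := i.isLt
    have hj := j.isLt
    exact Fin.ext (hf (Set.mem_Iio.2 (by omega)) (Set.mem_Iio.2 (by omega)) hij)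

theorem det_cons_row {k : ℕ} (A : Matrix (Fin r) (Fin r) ℂ) (f g : Fin k → Fin r) (a b : Fin r)
    (h : ∀ j, A a (g j) = 0) :
    (A.submatrix (Fin.cons a f : Fin (k + 1) → Fin r) (Fin.cons b g : Fin (k + 1) → Fin r)).det =
      A a b * (A.submatrix f g).det := by
  rw [Matrix.det_succ_row_zero, Fin.sum_univ_succ, Finset.sum_eq_zero, add_zero]
  · simp only [Fin.val_zero, pow_zero, one_mul, Matrix.submatrix_apply, Fin.cons_zero]
    congr 2
  · intro j _
    simp [h j]

theorem det_cons_col {k : ℕ} (A : Matrix (Fin r) (Fin r) ℂ) (f g : Fin k → Fin r) (a b : Fin r)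
    (h : ∀ i, A (f i) b = 0) :
    (A.submatrix (Fin.cons a f : Fin (k + 1) → Fin r) (Fin.cons b g : Fin (k + 1) → Fin r)).det =
      A a b * (A.submatrix f g).det := by
  rw [Matrix.det_succ_column_zero, Fin.sum_univ_succ, Finset.sum_eq_zero, add_zero]
  · simp only [Fin.val_zero, pow_zero, one_mul, Matrix.submatrix_apply, Fin.cons_zero]
    congr 2
  · intro j _
    simp [h j]

theorem loc_cyc {c : ℝ} {A : Matrix (Fin r) (Fin r) ℂ} (hA : Loc c A) : Cyc c A := by
  intro m f g hf hg hgk hd hn hch
  set f' : Fin m → Fin r := fun i => f i with hf'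
  set g' : Fin m → Fin r := fun i => g i with hg'
  have hE : (A.submatrix f' g').det = ∏ i ∈ range m, A (f i) (g i) := by
    rw [Matrix.det_of_isUpperTriangular, ← Fin.prod_univ_eq_prod_range (fun i => A (f i) (g i))]
    · rfl
    · intro i j hij
      have hi := i.isLt
      have hj := j.isLt
      have hij' : (j : ℕ) < i := hij
      exact hch _ (by omega) _ (by omega) (by omega) (by omega) (by omega)
  have hE0 : (A.submatrix f' g').det ≠ 0 := by
    rw [hE]
    exact Finset.prod_ne_zero_iff.2 fun i hi => hd i (by rw [mem_range] at hi; omega)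
  have m1 : (A.submatrix (Fin.cons (f m) f' : Fin (m + 1) → Fin r)
      (Fin.cons (g m) g' : Fin (m + 1) → Fin r)).det = A (f m) (g m) * (A.submatrix f' g').det := by
    apply det_cons_row
    intro j
    have hj := j.isLt
    exact hch _ (by omega) _ (by omega) (by omega) (by omega) (by omega)
  have m2 : (A.submatrix (Fin.cons (f (m + 1)) f' : Fin (m + 1) → Fin r)
      (Fin.cons (g (m + 1)) g' : Fin (m + 1) → Fin r)).det =
      A (f (m + 1)) (g (m + 1)) * (A.submatrix f' g').det := by
    apply det_cons_col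
    intro j
    have hj := j.isLt
    exact hch _ (by omega) _ (by omega) (by omega) (by omega) (by omega)
  have m3 : (A.submatrix (Fin.cons (f m) f' : Fin (m + 1) → Fin r)
      (Fin.cons (g (m + 1)) g' : Fin (m + 1) → Fin r)).det =
      A (f m) (g (m + 1)) * (A.submatrix f' g').det := by
    apply det_cons_row
    intro j
    have hj := j.isLt
    exact hch _ (by omega) _ (by omega) (by omega) (by omega) (by omega)
  have m4 : ‖(A.submatrix (Fin.cons (f (m + 1)) f' : Fin (m + 1) → Fin r)
      (Fin.cons (g m) g' : Fin (m + 1) → Fin r)).det‖ =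
      ‖A (f (m + 1)) (g (m + 2))‖ * ∏ i ∈ range m, ‖A (f i) (g (i + 1))‖ := by
    have e1 := Matrix.det_permute' (finRotate (m + 1))
      (A.submatrix (Fin.cons (f (m + 1)) f' : Fin (m + 1) → Fin r)
        (Fin.cons (g m) g' : Fin (m + 1) → Fin r))
    have e2 : (A.submatrix (Fin.cons (f (m + 1)) f' : Fin (m + 1) → Fin r)
        (Fin.cons (g m) g' : Fin (m + 1) → Fin r)).submatrix id (finRotate (m + 1)) =
        A.submatrix (Fin.cons (f (m + 1)) f' : Fin (m + 1) → Fin r)
          (fun i : Fin (m + 1) => g i) := by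
      have e3 : (fun i : Fin (m + 1) => g i) =
          fun i => (Fin.cons (g m) g' : Fin (m + 1) → Fin r) (finRotate (m + 1) i) := by
        rw [← Fin.snoc_eq_cons_rotate]
        ext i
        refine Fin.lastCases ?_ (fun i => ?_) i
        · simp
        · simp [hg']
      rw [e3]
      rfl
    rw [e2] at e1
    have e4 : (A.submatrix (Fin.cons (f (m + 1)) f' : Fin (m + 1) → Fin r)
          (fun i : Fin (m + 1) => g i)).det =
        A (f (m + 1)) (g 0) * ∏ i ∈ range m, A (f i) (g (i + 1)) := by
      rw [Matrix.det_of_isLowerTriangular, Fin.prod_univ_succ,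
        ← Fin.prod_univ_eq_prod_range (fun i => A (f i) (g (i + 1)))]
      · rfl
      · intro i j hij
        have hij' : i < j := hij
        have hj := j.isLt
        refine Fin.cases (motive := fun i => i < j → A.submatrix
          (Fin.cons (f (m + 1)) f' : Fin (m + 1) → Fin r) (fun i : Fin (m + 1) => g i) i j = 0)
          ?_ ?_ i hij'
        · intro h0
          have : 0 < (j : ℕ) := h0
          simp only [Matrix.submatrix_apply, Fin.cons_zero]
          exact hch _ (by omega) _ (by omega) (by omega) (by omega) (by omega)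
        · intro i h0
          have h1 : (i : ℕ) + 1 < j := by
            have := Fin.lt_def.1 h0
            rwa [Fin.val_succ] at this
          simp only [Matrix.submatrix_apply, Fin.cons_succ]
          exact hch _ (by omega) _ (by omega) (by omega) (by omega) (by omega)
    rw [e4] at e1
    have e5 := congrArg norm e1
    rw [norm_mul, norm_mul, norm_prod] at e5
    have hs : ‖((Equiv.Perm.sign (finRotate (m + 1)) : ℤ) : ℂ)‖ = 1 := by
      rcases Int.units_eq_one_or (Equiv.Perm.sign (finRotate (m + 1))) with h | h <;> simp [h]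
    rw [hs, one_mul] at e5
    rw [← e5, hgk]
  have hP : ∀ i < m + 2, A (f i) (g (i + 1)) ≠ 0 := hn
  have key := (hA m f' g' (f m) (f (m + 1)) (g m) (g (m + 1)) (cons_cons_inj m f hf)
    (cons_cons_inj m g hg) hE0 (by rw [m1]; exact mul_ne_zero (hd _ (by omega)) hE0)
    (by rw [m2]; exact mul_ne_zero (hd _ (by omega)) hE0)).1
    (by rw [m3]; exact mul_ne_zero (hn _ (by omega)) hE0)
    (by
      rw [← norm_pos_iff, m4]
      apply mul_pos
      · exact norm_pos_iff.2 (hn _ (by omega))
      · exact Finset.prod_pos fun i hi => norm_pos_iff.2 (hn i (by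
          rw [mem_range] at hi; omega)))
  rw [norm_mul, norm_mul, m1, m2, m3, m4, norm_mul, norm_mul, norm_mul] at key
  have hEpos : 0 < ‖(A.submatrix f' g').det‖ := norm_pos_iff.2 hE0
  have hEn : ‖(A.submatrix f' g').det‖ = ∏ i ∈ range m, ‖A (f i) (g i)‖ := by
    rw [hE, norm_prod]
  rw [prod_range_succ, prod_range_succ, prod_range_succ, prod_range_succ, ← hEn]
  refine le_of_mul_le_mul_left ?_ hEpos
  calc _ = _ := by ring
    _ ≤ _ := key
    _ = _ := by ring

end Pool.Agent.H23Sw
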