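import Mathlib

/-!
# The group of the numbers `w * 2 ^ m`, `w ^ 6 = 1` (helper23)
-/

set_option autoImplicit false

namespace Pool.Agent.H23Sw

open Finset

/-- The numbers `w * 2 ^ m` with `w ^ 6 = 1` and `m` an integer. -/
def G6 : Set ℂ := {z | ∃ (w : ℂ) (m : ℤ), w ^ 6 = 1 ∧ z = w * 2 ^ m}

theorem G6_one : (1 : ℂ) ∈ G6 := ⟨1, 0, by simp, by simp⟩

theorem G6_mul : ∀ p ∈ G6, ∀ q ∈ G6, p * q ∈ G6 := by
  rintro p ⟨w, m, hw, rfl⟩ q ⟨w', m', hw', rfl⟩
  refine ⟨w * w', m + m', by rw [mul_pow, hw, hw', one_mul], ?_⟩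
  rw [zpow_add₀ (by norm_num : (2 : ℂ) ≠ 0)]
  ring

theorem G6_neg : ∀ p ∈ G6, -p ∈ G6 := by
  rintro p ⟨w, m, hw, rfl⟩
  refine ⟨-w, m, ?_, by ring⟩
  rw [show (-w) ^ 6 = w ^ 6 by ring, hw]

theorem norm_root {w : ℂ} (hw : w ^ 6 = 1) : ‖w‖ = 1 := by
  have h := congrArg norm hw
  rw [norm_pow, norm_one] at h
  exact (pow_eq_one_iff_of_nonneg (norm_nonneg w) (by norm_num)).1 h

theorem norm_G6 {w : ℂ} {m : ℤ} (hw : w ^ 6 = 1) : ‖w * 2 ^ m‖ = 2 ^ m := by
  rw [norm_mul, norm_root hw, one_mul, norm_zpow]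
  norm_num

/-- A sixth root of unity has real part half an integer, and the square of its imaginary part is
three quarters of a square. -/
theorem root_cases {w : ℂ} (hw : w ^ 6 = 1) :
    (w.re = 1 ∧ w.im = 0) ∨ (w.re = -1 ∧ w.im = 0) ∨
    (w.re = 1 / 2 ∧ w.im ^ 2 = 3 / 4) ∨ (w.re = -1 / 2 ∧ w.im ^ 2 = 3 / 4) := by
  have h2 : w.re ^ 2 + w.im ^ 2 = 1 := by
    have h := norm_root hw
    have h3 := Complex.sq_norm w
    rw [h, Complex.normSq_apply] at h3
    nlinarith [h3]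
  have hfac : (w ^ 2 - 1) * ((w ^ 2 + w + 1) * (w ^ 2 - w + 1)) = 0 := by
    have : (w ^ 2 - 1) * ((w ^ 2 + w + 1) * (w ^ 2 - w + 1)) = w ^ 6 - 1 := by ring
    rw [this, hw, sub_self]
  have hre : ∀ z : ℂ, z = 0 → z.re = 0 ∧ z.im = 0 := by
    rintro z rfl
    simp
  rcases mul_eq_zero.1 hfac with h | h
  · have h4 := hre _ h
    simp only [pow_two, Complex.sub_re, Complex.mul_re, Complex.one_re, Complex.sub_im,
      Complex.mul_im, Complex.one_im] at h4
    have h5 : w.im ^ 2 = 0 := by nlinarith [h4.1]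
    have h6 : w.im = 0 := by simpa using h5
    rw [h6] at h2
    have h7 : (w.re - 1) * (w.re + 1) = 0 := by nlinarith
    rcases mul_eq_zero.1 h7 with h8 | h8
    · left; exact ⟨by linarith, h6⟩
    · right; left; exact ⟨by linarith, h6⟩
  · rcases mul_eq_zero.1 h with h | h
    · have h4 := hre _ h
      simp only [pow_two, Complex.add_re, Complex.mul_re, Complex.one_re, Complex.add_im,
        Complex.mul_im, Complex.one_im] at h4
      have h5 : w.re * (2 * w.re + 1) = 0 := by nlinarith [h4.1]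
      rcases mul_eq_zero.1 h5 with h6 | h6
      · exfalso
        have h7 := h4.2
        rw [h6] at h7 h2
        have h8 : w.im = 0 := by nlinarith
        rw [h8] at h2
        norm_num at h2
      · right; right; right
        have : w.re = -1 / 2 := by linarith
        refine ⟨this, ?_⟩
        rw [this] at h2
        nlinarith
    · have h4 := hre _ h
      simp only [pow_two, Complex.add_re, Complex.mul_re, Complex.one_re, Complex.add_im,
        Complex.mul_im, Complex.one_im, Complex.sub_re, Complex.sub_im] at h4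
      have h5 : w.re * (2 * w.re - 1) = 0 := by nlinarith [h4.1]
      rcases mul_eq_zero.1 h5 with h6 | h6
      · exfalso
        have h7 := h4.2
        rw [h6] at h7 h2
        have h8 : w.im = 0 := by nlinarith
        rw [h8] at h2
        norm_num at h2
      · right; right; left
        have : w.re = 1 / 2 := by linarith
        refine ⟨this, ?_⟩
        rw [this] at h2
        nlinarith

/-- `|p + q|² = |p|² + |q|² + t |p| |q|` with an integer `t`, `|t| ≤ 2`. -/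
theorem normSq_add {w w' : ℂ} (hw : w ^ 6 = 1) (hw' : w' ^ 6 = 1) (a b : ℝ) :
    ∃ t : ℤ, |t| ≤ 2 ∧ ‖w * a + w' * b‖ ^ 2 = a ^ 2 + b ^ 2 + t * (a * b) := by
  have hu : (w * (starRingEnd ℂ) w') ^ 6 = 1 := by
    rw [mul_pow, hw, ← map_pow, hw', map_one, one_mul]
  have h1 : w.re ^ 2 + w.im ^ 2 = 1 := by
    have h := norm_root hw
    have h3 := Complex.sq_norm w
    rw [h, Complex.normSq_apply] at h3
    nlinarith [h3]
  have h2 : w'.re ^ 2 + w'.im ^ 2 = 1 := by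
    have h := norm_root hw'
    have h3 := Complex.sq_norm w'
    rw [h, Complex.normSq_apply] at h3
    nlinarith [h3]
  have hre : (w * (starRingEnd ℂ) w').re = w.re * w'.re + w.im * w'.im := by
    simp [Complex.mul_re]
  have hn : ‖w * a + w' * b‖ ^ 2 = a ^ 2 + b ^ 2 + (2 * (w * (starRingEnd ℂ) w').re) * (a * b) := by
    rw [Complex.sq_norm, Complex.normSq_apply, hre]
    simp only [Complex.add_re, Complex.mul_re, Complex.ofReal_re, Complex.ofReal_im, mul_zero,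
      sub_zero, Complex.add_im, Complex.mul_im, zero_add]
    linear_combination (a ^ 2) * h1 + (b ^ 2) * h2
  rcases root_cases hu with h | h | h | h
  · exact ⟨2, by norm_num, by rw [hn, h.1]; push_cast; ring⟩
  · exact ⟨-2, by norm_num, by rw [hn, h.1]; push_cast; ring⟩
  · exact ⟨1, by norm_num, by rw [hn, h.1]; push_cast; ring⟩
  · exact ⟨-1, by norm_num, by rw [hn, h.1]; push_cast; ring⟩

/-- Fundamental elements: the ratio of two summands is at most two. -/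
theorem G6_fund : ∀ p ∈ G6, ∀ q ∈ G6, (p + q = 0 ∨ p + q ∈ G6) → ‖p‖ ≤ 2 * ‖q‖ := by
  rintro p ⟨w, a, hw, rfl⟩ q ⟨w', b, hw', rfl⟩ h
  rcases h with h | ⟨w'', j, hw'', h⟩
  · have : w * 2 ^ a = -(w' * 2 ^ b) := eq_neg_of_add_eq_zero_left h
    rw [this, norm_neg]
    have := norm_nonneg (w' * 2 ^ b)
    linarith
  · rw [norm_G6 hw, norm_G6 hw']
    by_contra hlt
    push Not at hlt
    have hab : b + 2 ≤ a := by
      by_contra hcon
      have h1 : a ≤ b + 1 := by omega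
      have h2 : (2 : ℝ) ^ a ≤ 2 ^ (b + 1) := zpow_le_zpow_right₀ (by norm_num) h1
      rw [zpow_add₀ (by norm_num : (2 : ℝ) ≠ 0), zpow_one] at h2
      linarith
    obtain ⟨d, hd, hd2⟩ : ∃ d : ℕ, a = b + d ∧ 2 ≤ d := ⟨(a - b).toNat, by omega, by omega⟩
    obtain ⟨t, ht, hn⟩ := normSq_add hw hw' ((2 : ℝ) ^ a) ((2 : ℝ) ^ b)
    have e1 : w * (((2 : ℝ) ^ a : ℝ) : ℂ) + w' * (((2 : ℝ) ^ b : ℝ) : ℂ) = w'' * 2 ^ j := by
      rw [← h]
      push_cast
      rfl
    rw [e1, norm_G6 hw''] at hn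
    set B : ℝ := (2 : ℝ) ^ b with hB
    have hBpos : 0 < B := by positivity
    have eA : (2 : ℝ) ^ a = B * 2 ^ d := by
      rw [hd, zpow_add₀ (by norm_num : (2 : ℝ) ≠ 0), zpow_natCast]
    have eJ : (2 : ℝ) ^ j = B * 2 ^ (j - b) := by
      rw [hB, ← zpow_add₀ (by norm_num : (2 : ℝ) ≠ 0)]
      congr 1
      ring
    rw [eA, eJ] at hn
    have hn2 : ((2 : ℝ) ^ (j - b)) ^ 2 = (2 ^ d) ^ 2 + 1 + t * 2 ^ d := by
      have hB2 : B ^ 2 ≠ 0 := by positivity
      apply mul_left_cancel₀ hB2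
      linear_combination hn
    have hd4 : (4 : ℝ) ≤ 2 ^ d := by
      calc (4 : ℝ) = 2 ^ 2 := by norm_num
        _ ≤ 2 ^ d := pow_le_pow_right₀ (by norm_num) hd2
    have ht2 : (-2 : ℝ) ≤ t := by
      have := (abs_le.1 ht).1
      exact_mod_cast this
    have hgt : 1 < ((2 : ℝ) ^ (j - b)) ^ 2 := by
      rw [hn2]
      nlinarith
    have hjb : 0 < j - b := by
      by_contra hcon
      have h1 : (2 : ℝ) ^ (j - b) ≤ 2 ^ (0 : ℤ) := zpow_le_zpow_right₀ (by norm_num) (by omega)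
      rw [zpow_zero] at h1
      have h2 : 0 < (2 : ℝ) ^ (j - b) := by positivity
      nlinarith
    obtain ⟨e, he, he1⟩ : ∃ e : ℕ, j - b = (e : ℤ) ∧ 1 ≤ e := ⟨(j - b).toNat, by omega, by omega⟩
    rw [he, zpow_natCast] at hn2
    have hn3 : ((2 : ℤ) ^ e) ^ 2 = (2 ^ d) ^ 2 + 1 + t * 2 ^ d := by exact_mod_cast hn2
    obtain ⟨e', rfl⟩ : ∃ e', e = e' + 1 := ⟨e - 1, by omega⟩
    obtain ⟨d', rfl⟩ : ∃ d', d = d' + 1 := ⟨d - 1, by omega⟩
    rw [pow_succ, pow_succ] at hn3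
    have h5 : (2 : ℤ) ∣ 1 := by
      refine ⟨(2 ^ e') ^ 2 * 2 - (2 ^ d') ^ 2 * 2 - t * 2 ^ d', ?_⟩
      linear_combination -hn3
    norm_num at h5

/-- The primitive sixth root of unity. -/
noncomputable def eta : ℂ := ⟨1 / 2, Real.sqrt 3 / 2⟩

theorem eisen_norm (a b : ℤ) : ‖(a : ℂ) + b * eta‖ ^ 2 = ((a ^ 2 + a * b + b ^ 2 : ℤ) : ℝ) := by
  have h3 : Real.sqrt 3 ^ 2 = 3 := Real.sq_sqrt (by norm_num)
  rw [Complex.sq_norm, Complex.normSq_apply]
  simp only [eta, Complex.add_re, Complex.intCast_re, Complex.mul_re, Complex.intCast_im, zero_mul,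
    sub_zero, Complex.add_im, Complex.mul_im, zero_add, add_zero]
  push_cast
  linear_combination ((b : ℝ) ^ 2 / 4) * h3

theorem eisen_ge (a b : ℤ) (h : (a : ℂ) + b * eta ≠ 0) : 1 ≤ ‖(a : ℂ) + b * eta‖ := by
  have h1 := eisen_norm a b
  have hpos : 0 < ‖(a : ℂ) + b * eta‖ := norm_pos_iff.2 h
  have h2 : (0 : ℝ) < ((a ^ 2 + a * b + b ^ 2 : ℤ) : ℝ) := by
    rw [← h1]
    positivity
  have h3 : (1 : ℤ) ≤ a ^ 2 + a * b + b ^ 2 := by
    have : (0 : ℤ) < a ^ 2 + a * b + b ^ 2 := by exact_mod_cast h2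
    omega
  have h4 : (1 : ℝ) ≤ ‖(a : ℂ) + b * eta‖ ^ 2 := by
    rw [h1]
    exact_mod_cast h3
  nlinarith

theorem root_eisen {w : ℂ} (hw : w ^ 6 = 1) : ∃ a b : ℤ, w = (a : ℂ) + b * eta := by
  have h3 : Real.sqrt 3 ^ 2 = 3 := Real.sq_sqrt (by norm_num)
  have him : w.im ^ 2 = 3 / 4 → w.im = Real.sqrt 3 / 2 ∨ w.im = -(Real.sqrt 3 / 2) := by
    intro h
    have : (w.im - Real.sqrt 3 / 2) * (w.im + Real.sqrt 3 / 2) = 0 := by nlinarith
    rcases mul_eq_zero.1 this with h | h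
    · left; linarith
    · right; linarith
  rcases root_cases hw with h | h | h | h
  · exact ⟨1, 0, by apply Complex.ext <;> simp [h.1, h.2]⟩
  · exact ⟨-1, 0, by apply Complex.ext <;> simp [h.1, h.2]⟩
  · rcases him h.2 with h' | h'
    · exact ⟨0, 1, by apply Complex.ext <;> simp [h.1, h', eta]⟩
    · exact ⟨1, -1, by apply Complex.ext <;> simp [h.1, h', eta] <;> norm_num⟩
  · rcases him h.2 with h' | h'
    · exact ⟨-1, 1, by apply Complex.ext <;> simp [h.1, h', eta] <;> norm_num⟩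
    · exact ⟨0, -1, by apply Complex.ext <;> simp [h.1, h', eta] <;> norm_num⟩

/-- Lower bound for a sum of elements of the group. -/
theorem G6_low {ι : Type*} (S : Finset ι) (w : ι → ℂ) (hw : ∀ i ∈ S, w i ∈ G6)
    (hne : ∑ i ∈ S, w i ≠ 0) : ∃ i ∈ S, ‖w i‖ ≤ ‖∑ i ∈ S, w i‖ := by
  classical
  have hS : S.Nonempty := by
    by_contra h
    rw [Finset.not_nonempty_iff_eq_empty] at h
    rw [h] at hne
    simp at hne
  obtain ⟨i0, hi0, hmin⟩ := S.exists_min_image (fun i => ‖w i‖) hS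
  refine ⟨i0, hi0, ?_⟩
  obtain ⟨u0, m0, hu0, he0⟩ := hw i0 hi0
  have h2ne : (2 : ℂ) ^ m0 ≠ 0 := zpow_ne_zero _ (by norm_num)
  have hE : ∀ T : Finset ι, T ⊆ S → ∃ a b : ℤ,
      ∑ i ∈ T, w i = 2 ^ m0 * ((a : ℂ) + b * eta) := by
    intro T
    induction T using Finset.induction_on with
    | empty => intro _; exact ⟨0, 0, by simp⟩
    | insert i T hi ih =>
      intro hT
      obtain ⟨a, b, hab⟩ := ih fun x hx => hT (mem_insert_of_mem hx)
      have hiS : i ∈ S := hT (mem_insert_self i T)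
      obtain ⟨u, m, hu, he⟩ := hw i hiS
      have hm : m0 ≤ m := by
        have := hmin i hiS
        rw [he, he0, norm_G6 hu, norm_G6 hu0] at this
        exact (zpow_le_zpow_iff_right₀ (by norm_num : (1 : ℝ) < 2)).1 this
      obtain ⟨d, hd⟩ : ∃ d : ℕ, m = m0 + d := ⟨(m - m0).toNat, by omega⟩
      obtain ⟨a', b', hu'⟩ := root_eisen hu
      refine ⟨a + a' * 2 ^ d, b + b' * 2 ^ d, ?_⟩
      rw [Finset.sum_insert hi, hab, he, hd, zpow_add₀ (by norm_num : (2 : ℂ) ≠ 0), zpow_natCast,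
        hu']
      push_cast
      ring
  obtain ⟨a, b, hab⟩ := hE S subset_rfl
  rw [hab] at hne
  rw [hab, he0, norm_G6 hu0, norm_mul, norm_zpow]
  have h1 := eisen_ge a b (right_ne_zero_of_mul hne)
  have h2 : (0 : ℝ) < 2 ^ m0 := by positivity
  have h3 : ‖(2 : ℂ)‖ = 2 := by norm_num
  rw [h3]
  nlinarith

end Pool.Agent.H23Sw
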