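import Pool.Agent.H68Rg.OfRG

/-!
# All link sums of the products of complementary minors vanish (helper23)
-/

set_option autoImplicit false

namespace Pool.Agent.H23Sw

open Finset Pool.Agent.H68Rg

variable {r : ℕ} {K : Type*} [Field K]

/-- The rows `(E a, 0)`. -/
def rowX (E : Fin r ⊕ Fin r → Fin r → K) : Fin r ⊕ Fin r → Fin r ⊕ Fin r → K :=
  fun a x => Sum.elim (fun i => E a i) (fun _ => 0) x

/-- The rows `(0, E a)` for `a ∉ C`, zero for `a ∈ C`. -/
def rowY (E : Fin r ⊕ Fin r → Fin r → K) (C : Finset (Fin r ⊕ Fin r)) :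
    Fin r ⊕ Fin r → Fin r ⊕ Fin r → K :=
  fun a x => Sum.elim (fun _ => 0) (fun i => if a ∈ C then 0 else E a i) x

theorem det_piecewise (E : Fin r ⊕ Fin r → Fin r → K) (C s : Finset (Fin r ⊕ Fin r)) :
    (Matrix.of (s.piecewise (rowX E) (rowY E C))).det = if C ⊆ s then (mat E s).det else 0 := by
  classical
  by_cases h : C ⊆ s
  · rw [if_pos h, ← Matrix.det_transpose (mat E s)]
    congr 1
    ext a x
    rw [Matrix.of_apply, Matrix.transpose_apply]
    by_cases ha : a ∈ s
    · rw [Finset.piecewise_eq_of_mem _ _ _ ha]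
      rcases x with i | i <;> simp [rowX, mat, ha]
    · rw [Finset.piecewise_eq_of_notMem _ _ _ ha]
      have haC : a ∉ C := fun hC => ha (h hC)
      rcases x with i | i <;> simp [rowY, mat, ha, haC]
  · rw [if_neg h]
    obtain ⟨a, haC, has⟩ := Finset.not_subset.1 h
    refine Matrix.det_eq_zero_of_row_eq_zero a fun x => ?_
    rw [Matrix.of_apply, Finset.piecewise_eq_of_notMem _ _ _ has]
    rcases x with i | i <;> simp [rowY, haC]

/-- The sum over all sets that contain `C` is the value at `C`. -/
theorem sum_superset (E : Fin r ⊕ Fin r → Fin r → K) (C : Finset (Fin r ⊕ Fin r)) :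
    ∑ T : Finset (Fin r ⊕ Fin r), (if C ⊆ T then (mat E T).det else 0) = (mat E C).det := by
  classical
  have h1 : (Matrix.of (rowX E + rowY E C)).det =
      ∑ s : Finset (Fin r ⊕ Fin r), (Matrix.of (s.piecewise (rowX E) (rowY E C))).det := by
    exact (Matrix.detRowAlternating (n := Fin r ⊕ Fin r) (R := K)).toMultilinearMap.map_add_univ
      (rowX E) (rowY E C)
  rw [← Finset.sum_congr rfl fun s _ => det_piecewise E C s, ← h1]
  -- a column operation
  have h2 : Matrix.of (rowX E + rowY E C) * (Matrix.fromBlocks 1 0 (-1) 1 :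
      Matrix (Fin r ⊕ Fin r) (Fin r ⊕ Fin r) K) = (mat E C).transpose := by
    ext a x
    rcases x with i | i
    · by_cases ha : a ∈ C <;>
        simp [Matrix.mul_apply, Matrix.one_apply, rowX, rowY, ha, mat]
    · by_cases ha : a ∈ C <;>
        simp [Matrix.mul_apply, Matrix.one_apply, rowX, rowY, ha, mat]
  have h3 := congrArg Matrix.det h2
  rw [Matrix.det_mul, Matrix.det_fromBlocks_zero₁₂, Matrix.det_one, one_mul, mul_one,
    Matrix.det_transpose] at h3
  exact h3

/-- **(H1)** All sums over the supersets of a set with fewer than `r` elements vanish. -/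
theorem sum_superset_eq_zero (E : Fin r ⊕ Fin r → Fin r → K) (C : Finset (Fin r ⊕ Fin r))
    (hC : C.card < r) :
    ∑ T ∈ univ.filter (fun T : Finset (Fin r ⊕ Fin r) => C ⊆ T), (mat E T).det = 0 := by
  classical
  rw [Finset.sum_filter, sum_superset]
  by_contra h
  exact absurd (card_of_det h) (by omega)

end Pool.Agent.H23Sw
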