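import Pool.Agent.H2Swap.Key

/-!
# The one-step form of the swap theorem with length

`G` real and harmonic on the `r`-subsets of a `2 r`-set, balls `R k` about `S` in its support.
If `Sᶜ` is at distance at least `l` then `(1 + 2 / r) ^ l * G S ^ 2 ≤ (r + 1) * ∑ G ^ 2`.
-/

set_option autoImplicit false

namespace Pool.Agent.H23Sw

open Finset Classical Pool.Agent.H2Swap

variable {E : Type*} [Fintype E] [DecidableEq E]

/-- The weight `t ^ (distance from S)`. -/
noncomputable def wt (R : ℕ → Finset E → Prop) (t : ℝ) (A : Finset E) : ℝ :=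
  if h : ∃ k, R k A then t ^ (Nat.find h) else 0

theorem mono {R : ℕ → Finset E → Prop} (hmono : ∀ k A, R k A → R (k + 1) A) {i j : ℕ}
    (hij : i ≤ j) {A : Finset E} (h : R i A) : R j A := by
  induction hij with
  | refl => exact h
  | step _ ih => exact hmono _ _ ih

theorem wt_pos {R : ℕ → Finset E → Prop} {t : ℝ} {A : Finset E} (h : ∃ k, R k A) :
    wt R t A = t ^ (Nat.find h) := dif_pos h

theorem wt_neg {R : ℕ → Finset E → Prop} {t : ℝ} {A : Finset E} (h : ¬ ∃ k, R k A) :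
    wt R t A = 0 := dif_neg h

/-- The clique bound. -/
theorem clique {r : ℕ} (hE : Fintype.card E = 2 * r) (G : Finset E → ℝ)
    (hG : ∀ A, G A ≠ 0 → A.card = r) (hrel : ∀ C, D G C = 0)
    (R : ℕ → Finset E → Prop)
    (hstep : ∀ k C a b, a ∉ C → b ∉ C → R k (insert a C) → G (insert b C) ≠ 0 →
      R (k + 1) (insert b C)) {t : ℝ} (ht : 0 < t) (C : Finset E) :
    D (fun A => wt R t A * G A) C ^ 2 ≤
      (r + 1) * ((1 - t) / (1 + t)) ^ 2 * ∑ a ∈ Cᶜ, (wt R t (insert a C) * G (insert a C)) ^ 2 := by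
  have hnn : 0 ≤ ∑ a ∈ Cᶜ, (wt R t (insert a C) * G (insert a C)) ^ 2 :=
    Finset.sum_nonneg fun a _ => sq_nonneg _
  have hk : (0 : ℝ) ≤ (r + 1) * ((1 - t) / (1 + t)) ^ 2 := by positivity
  by_cases hz : ∀ a ∈ Cᶜ, wt R t (insert a C) * G (insert a C) = 0
  · have : D (fun A => wt R t A * G A) C = 0 := Finset.sum_eq_zero hz
    rw [this]
    simpa using mul_nonneg hk hnn
  push Not at hz
  -- the distances which occur in the clique
  have hex : ∃ i, ∃ a, a ∉ C ∧ G (insert a C) ≠ 0 ∧ R i (insert a C) := by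
    obtain ⟨a, ha, h⟩ := hz
    have h1 : ∃ k, R k (insert a C) := by
      by_contra hc
      exact h (by rw [wt_neg hc, zero_mul])
    obtain ⟨k, hk⟩ := h1
    exact ⟨k, a, mem_compl.1 ha, right_ne_zero_of_mul h, hk⟩
  set i := Nat.find hex with hi
  obtain ⟨a₀, ha₀, hG₀, hRa⟩ := Nat.find_spec hex
  rw [← hi] at hRa
  have hmin : ∀ j, j < i → ∀ b, b ∉ C → G (insert b C) ≠ 0 → ¬ R j (insert b C) := by
    intro j hj b hb hb2 hR
    exact Nat.find_min hex hj ⟨b, hb, hb2, hR⟩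
  have hcard : C.card + 1 = r := by
    rw [← hG _ hG₀, card_insert_of_notMem ha₀]
  have hcc : (Cᶜ.card : ℝ) = r + 1 := by
    rw [card_compl, hE]
    have : 2 * r - C.card = r + 1 := by omega
    rw [this]
    push_cast
    ring
  set μ : ℝ := t ^ i * (2 * t / (1 + t)) with hμ
  have h1t : (1 + t) ≠ 0 := by positivity
  have hx : ∀ b ∈ Cᶜ, ((wt R t (insert b C) - μ) * G (insert b C)) ^ 2 =
      ((1 - t) / (1 + t)) ^ 2 * (wt R t (insert b C) * G (insert b C)) ^ 2 := by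
    intro b hb
    rw [mem_compl] at hb
    by_cases h : G (insert b C) = 0
    · rw [h]; ring
    have h1 : R (i + 1) (insert b C) := hstep i C a₀ b ha₀ hb hRa h
    have h2 : ∃ k, R k (insert b C) := ⟨_, h1⟩
    have h3 : Nat.find h2 ≤ i + 1 := Nat.find_min' h2 h1
    have h4 : i ≤ Nat.find h2 := by
      by_contra hc
      exact hmin _ (not_le.1 hc) b hb h (Nat.find_spec h2)
    rw [wt_pos h2]
    rcases Nat.lt_or_ge i (Nat.find h2) with h5 | h5
    · have h6 : Nat.find h2 = i + 1 := by omega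
      rw [h6, hμ, pow_succ]
      field_simp
      ring
    · have h6 : Nat.find h2 = i := by omega
      rw [h6, hμ]
      field_simp
      ring
  have hD : D (fun A => wt R t A * G A) C =
      ∑ b ∈ Cᶜ, (wt R t (insert b C) - μ) * G (insert b C) := by
    have h2 : ∑ b ∈ Cᶜ, G (insert b C) = 0 := hrel C
    have h3 : ∑ b ∈ Cᶜ, (wt R t (insert b C) - μ) * G (insert b C) =
        ∑ b ∈ Cᶜ, wt R t (insert b C) * G (insert b C) - μ * ∑ b ∈ Cᶜ, G (insert b C) := by
      rw [Finset.mul_sum, ← Finset.sum_sub_distrib]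
      exact Finset.sum_congr rfl fun b _ => by ring
    rw [h3, h2, mul_zero, sub_zero]
    rfl
  rw [hD]
  calc (∑ b ∈ Cᶜ, (wt R t (insert b C) - μ) * G (insert b C)) ^ 2
      ≤ Cᶜ.card * ∑ b ∈ Cᶜ, ((wt R t (insert b C) - μ) * G (insert b C)) ^ 2 :=
        sq_sum_le_card_mul_sum_sq
    _ = _ := by
        rw [hcc, Finset.sum_congr rfl hx, ← Finset.mul_sum, mul_assoc]

/-- **One-step form.** -/
theorem one_step {r : ℕ} (hr : 0 < r) (hE : Fintype.card E = 2 * r) (G : Finset E → ℝ)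
    (hG : ∀ A, G A ≠ 0 → A.card = r) (hrel : ∀ C, D G C = 0)
    (R : ℕ → Finset E → Prop)
    (hstep : ∀ k C a b, a ∉ C → b ∉ C → R k (insert a C) → G (insert b C) ≠ 0 →
      R (k + 1) (insert b C)) (S : Finset E) (hS : R 0 S) (l : ℕ)
    (hdis : ∀ i j A, R i A → R j Aᶜ → l ≤ i + j) :
    (1 + 2 / (r : ℝ)) ^ l * G S ^ 2 ≤ (r + 1) * ∑ A, G A ^ 2 := by
  have hr' : (0 : ℝ) < r := by exact_mod_cast hr
  set t : ℝ := r / (r + 2) with htd
  have ht : 0 < t := by positivity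
  have ht1 : t ≤ 1 := by
    rw [htd, div_le_one (by positivity)]
    linarith
  have hκ : (1 - t) / (1 + t) = 1 / (r + 1) := by
    rw [htd]
    field_simp
    ring
  set f : Finset E → ℝ := fun A => wt R t A * G A with hf
  have hfG : ∀ A, f A ≠ 0 → A.card = r := fun A hA => hG A (right_ne_zero_of_mul hA)
  -- the energy
  have h1 : ∑ C, D f C ^ 2 ≤ (r / (r + 1)) * ∑ A, f A ^ 2 := by
    calc ∑ C, D f C ^ 2 ≤ ∑ C : Finset E, (1 / (r + 1)) * ∑ a ∈ Cᶜ, f (insert a C) ^ 2 := by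
          refine Finset.sum_le_sum fun C _ => ?_
          have h := clique hE G hG hrel R hstep ht C
          rw [hκ] at h
          have e : ((r : ℝ) + 1) * (1 / (r + 1)) ^ 2 = 1 / (r + 1) := by
            field_simp
          rw [e] at h
          exact h
      _ = (1 / (r + 1)) * ∑ A : Finset E, ∑ a ∈ A, f A ^ 2 := by
          rw [← Finset.mul_sum, ← sum_swap (fun (A : Finset E) (_ : E) => f A ^ 2)]
      _ = (r / (r + 1)) * ∑ A, f A ^ 2 := by
          have e : ∑ A : Finset E, ∑ a ∈ A, f A ^ 2 = r * ∑ A, f A ^ 2 := by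
            rw [Finset.mul_sum]
            refine Finset.sum_congr rfl fun A _ => ?_
            rw [Finset.sum_const, nsmul_eq_mul]
            by_cases h : f A = 0
            · rw [h]; ring
            · rw [hfG A h]
          rw [e]
          ring
  have h2 := sum_g hr hE f hfG
  have h3 : ((-1 : ℝ) ^ r) ^ 2 = 1 := by
    rw [← pow_mul, mul_comm, pow_mul]; norm_num
  have h4 : ∑ A, (f A - (-1) ^ r * f Aᶜ) ^ 2 =
      2 * ∑ A, f A ^ 2 - 2 * ∑ A, (-1) ^ r * (f A * f Aᶜ) := by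
    have e : ∀ A, (f A - (-1) ^ r * f Aᶜ) ^ 2 =
        f A ^ 2 + f Aᶜ ^ 2 - 2 * ((-1) ^ r * (f A * f Aᶜ)) := by
      intro A
      have : (f A - (-1) ^ r * f Aᶜ) ^ 2 =
        f A ^ 2 + ((-1 : ℝ) ^ r) ^ 2 * f Aᶜ ^ 2 - 2 * ((-1) ^ r * (f A * f Aᶜ)) := by ring
      rw [this, h3, one_mul]
    rw [Finset.sum_congr rfl fun A _ => e A, Finset.sum_sub_distrib, Finset.sum_add_distrib,
      sum_compl' (fun A => f A ^ 2), ← Finset.mul_sum]
    ring
  have h5 : ∑ A, (-1) ^ r * (f A * f Aᶜ) ≤ t ^ l * ∑ A, G A ^ 2 := by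
    rw [Finset.mul_sum]
    refine Finset.sum_le_sum fun A _ => ?_
    have hm : G Aᶜ ^ 2 = G A ^ 2 := by
      rw [mirror hr hE G hG hrel A, mul_pow, h3, one_mul]
    by_cases hA : (∃ k, R k A) ∧ (∃ k, R k Aᶜ)
    · obtain ⟨ha, hb⟩ := hA
      have e : (-1) ^ r * (f A * f Aᶜ) =
          t ^ (Nat.find ha + Nat.find hb) * ((-1) ^ r * (G A * G Aᶜ)) := by
        simp only [hf, wt_pos ha, wt_pos hb]
        rw [pow_add]
        ring
      have e2 : (-1) ^ r * (G A * G Aᶜ) = G A ^ 2 := by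
        have := mirror hr hE G hG hrel A
        calc (-1) ^ r * (G A * G Aᶜ) = G A * ((-1) ^ r * G Aᶜ) := by ring
          _ = G A ^ 2 := by rw [← this]; ring
      rw [e, e2]
      refine mul_le_mul_of_nonneg_right ?_ (sq_nonneg _)
      exact pow_le_pow_of_le_one ht.le ht1 (hdis _ _ A (Nat.find_spec ha) (Nat.find_spec hb))
    · have e : f A * f Aᶜ = 0 := by
        rcases not_and_or.1 hA with h | h
        · simp only [hf, wt_neg h, zero_mul]
        · simp only [hf, wt_neg h, zero_mul, mul_zero]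
      rw [e, mul_zero]
      positivity
  have h6 : G S ^ 2 ≤ ∑ A, f A ^ 2 := by
    have e : G S ^ 2 = f S ^ 2 := by
      have hs : ∃ k, R k S := ⟨0, hS⟩
      have : Nat.find hs = 0 := (Nat.find_eq_zero hs).2 hS
      simp only [hf, wt_pos hs, this, pow_zero, one_mul]
    rw [e]
    exact Finset.single_le_sum (f := fun A => f A ^ 2) (fun A _ => sq_nonneg _) (mem_univ S)
  have h7 : (1 / (r + 1)) * ∑ A, f A ^ 2 ≤ t ^ l * ∑ A, G A ^ 2 := by
    have e : (r / (r + 1) : ℝ) = 1 - 1 / (r + 1) := by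
      field_simp
      ring
    rw [e] at h1
    rw [h4] at h2
    nlinarith
  have h8 : (1 + 2 / (r : ℝ)) ^ l * t ^ l = 1 := by
    rw [← mul_pow]
    have : (1 + 2 / (r : ℝ)) * t = 1 := by
      rw [htd]
      field_simp
    rw [this, one_pow]
  have hp : (0 : ℝ) ≤ (1 + 2 / (r : ℝ)) ^ l := by positivity
  have h9 : G S ^ 2 ≤ (r + 1) * (t ^ l * ∑ A, G A ^ 2) := by
    have h10 : ∑ A, f A ^ 2 ≤ (r + 1) * (t ^ l * ∑ A, G A ^ 2) := by
      have := mul_le_mul_of_nonneg_left h7 (show (0 : ℝ) ≤ r + 1 by positivity)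
      calc ∑ A, f A ^ 2 = (r + 1) * ((1 / (r + 1)) * ∑ A, f A ^ 2) := by
            field_simp
        _ ≤ _ := this
    exact h6.trans h10
  calc (1 + 2 / (r : ℝ)) ^ l * G S ^ 2
      ≤ (1 + 2 / (r : ℝ)) ^ l * ((r + 1) * (t ^ l * ∑ A, G A ^ 2)) :=
        mul_le_mul_of_nonneg_left h9 hp
    _ = ((1 + 2 / (r : ℝ)) ^ l * t ^ l) * ((r + 1) * ∑ A, G A ^ 2) := by ring
    _ = (r + 1) * ∑ A, G A ^ 2 := by rw [h8, one_mul]

end Pool.Agent.H23Sw
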